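import Mathlib
import Pool.Agent.Work.MP_20070e_gt.X.SDefs

/-!
# Y/YDefs (FIXED): recurrence, for general lattices (uniform or not)
-/

set_option autoImplicit false

open Matrix Topology Metric Filter

namespace Pool.Agent.Work.MP_20070e_gt.Y

open Pool.Agent.Work.MP_20070e_gt.X

/-- The point `g Γ` of `G / Γ` is recurrent under left multiplication by `a`. -/
def Recur {n : ℕ} (Γ : Subgroup (SLn n)) (a g : SLn n) : Prop :=
  ∃ (k : ℕ → ℕ) (γ : ℕ → SLn n), Tendsto k atTop atTop ∧ (∀ j, γ j ∈ Γ) ∧
    Tendsto (fun j => a ^ (k j) * g * γ j) atTop (𝓝 g)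

/-- `diag (e^{-1}, .., e^{m}, .., e^{-1})`, the entry `e^m` at the place `r` -/
noncomputable def dg (m : ℕ) (r : Fin (m + 1)) : SLn (m + 1) :=
  ⟨Matrix.diagonal (fun i => if i = r then Real.exp m else Real.exp (-1)), by
    rw [Matrix.det_diagonal]
    have h1 : (Finset.univ.filter (fun i : Fin (m + 1) => i = r)).card = 1 := by
      rw [Finset.filter_eq' Finset.univ r, if_pos (Finset.mem_univ r)]
      simp
    have h2 : (Finset.univ.filter (fun i : Fin (m + 1) => ¬ i = r)).card = m := by
      have := Finset.card_filter_add_card_filter_not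
        (s := (Finset.univ : Finset (Fin (m + 1)))) (fun i => i = r)
      rw [h1, Finset.card_univ, Fintype.card_fin] at this
      omega
    rw [Finset.prod_ite, Finset.prod_const, Finset.prod_const, h1, h2, pow_one,
      ← Real.exp_nat_mul, ← Real.exp_add]
    simp⟩

end Pool.Agent.Work.MP_20070e_gt.Y
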