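import Mathlib
import Pool.Agent.Work.MP_20070e_gt.Y.YDefs

/-!
# Y/YTop (S): topology of `SL_n(ℝ)` and discrete subgroups

`SL_n(ℝ)` is a closed subset of the finite dimensional space of matrices (`SpecialLinearGroup.isClosedEmbedding_val` or by hand: `det` is continuous), so it is locally compact and second countable.
`countable_of_discrete`: a discrete subgroup of a second countable space is countable: as a subspace it is discrete (translate `U`) and second countable (`TopologicalSpace.separableSpace_iff_countable` or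
`countable_of_isolated..`; or: choose for every `γ` a basic open set containing `γ` and no other point of `Γ`: an injection into a countable basis).
`small_nhds`: the map `(b, b') ↦ b⁻¹ b'` is continuous and maps `(g, g)` to `1 ∈ U`; take `B` open with `B × B` mapped into `U`. `b γ = b'` gives `γ = b⁻¹ b' ∈ U`.
-/

set_option autoImplicit false

open Matrix Topology Metric Filter

namespace Pool.Agent.Work.MP_20070e_gt.Y

open Pool.Agent.Work.MP_20070e_gt.X

variable {n : ℕ}

instance instLCSL : LocallyCompactSpace (SLn n) := by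
  have h := (SpecialLinearGroup.isClosedEmbedding_val (n := Fin n) (R := ℝ))
  have : LocallyCompactSpace (Matrix (Fin n) (Fin n) ℝ) :=
    inferInstanceAs (LocallyCompactSpace (Fin n → Fin n → ℝ))
  exact h.locallyCompactSpace

instance instSCSL : SecondCountableTopology (SLn n) := by
  have h := (SpecialLinearGroup.isClosedEmbedding_val (n := Fin n) (R := ℝ))
  have : SecondCountableTopology (Matrix (Fin n) (Fin n) ℝ) :=
    inferInstanceAs (SecondCountableTopology (Fin n → Fin n → ℝ))
  exact h.isEmbedding.secondCountableTopology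

theorem countable_of_discrete {Γ : Subgroup (SLn n)} (hΓ : IsDiscreteSubgroup Γ) :
    (Γ : Set (SLn n)).Countable := by
  have hB : ∀ γ : SLn n, γ ∈ Γ → ∃ V ∈ TopologicalSpace.countableBasis (SLn n), γ ∈ V ∧
      ∀ γ' ∈ Γ, γ' ∈ V → γ' = γ := by
    intro γ hγ
    obtain ⟨U, hU, hU2⟩ := hΓ
    have h1 : (fun x : SLn n => γ⁻¹ * x) ⁻¹' U ∈ 𝓝 γ := by
      have hc : Continuous (fun x : SLn n => γ⁻¹ * x) := continuous_const.mul continuous_id
      apply hc.continuousAt.preimage_mem_nhds
      simpa using hU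
    obtain ⟨V, hV, hγV, hVU⟩ :=
      (TopologicalSpace.isBasis_countableBasis (SLn n)).mem_nhds_iff.1 h1
    refine ⟨V, hV, hγV, ?_⟩
    intro γ' hγ' hV'
    have h2 : γ⁻¹ * γ' ∈ U := hVU hV'
    have h3 := hU2 _ (Γ.mul_mem (Γ.inv_mem hγ) hγ') h2
    exact (inv_mul_eq_one.1 h3).symm
  choose! V hV hγV hVu using hB
  have hinj : Set.InjOn V (Γ : Set (SLn n)) := by
    intro a ha b hb hab
    have h1 : a ∈ V b := hab ▸ hγV a ha
    exact hVu b hb a ha h1
  have hmap : Set.MapsTo V (Γ : Set (SLn n)) (TopologicalSpace.countableBasis (SLn n)) :=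
    fun a ha => hV a ha
  exact hmap.countable_of_injOn hinj (TopologicalSpace.countable_countableBasis (SLn n))

theorem small_nhds {Γ : Subgroup (SLn n)} (hΓ : IsDiscreteSubgroup Γ) (g : SLn n) :
    ∃ B : Set (SLn n), IsOpen B ∧ g ∈ B ∧ ∀ b ∈ B, ∀ b' ∈ B, ∀ γ ∈ Γ, b * γ = b' → γ = 1 := by
  obtain ⟨U, hU, hU2⟩ := hΓ
  have hc : Continuous (fun p : SLn n × SLn n => p.1⁻¹ * p.2) :=
    (continuous_fst.inv).mul continuous_snd
  have h1 : (fun p : SLn n × SLn n => p.1⁻¹ * p.2) ⁻¹' U ∈ 𝓝 (g, g) := by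
    apply hc.continuousAt.preimage_mem_nhds
    simpa using hU
  rw [nhds_prod_eq, Filter.mem_prod_same_iff] at h1
  obtain ⟨t, ht, ht2⟩ := h1
  obtain ⟨B, hB, hBo, hgB⟩ := mem_nhds_iff.1 ht
  refine ⟨B, hBo, hgB, ?_⟩
  intro b hb b' hb' γ hγ he
  apply hU2 γ hγ
  have h2 : ((b, b') : SLn n × SLn n) ∈ t ×ˢ t := ⟨hB hb, hB hb'⟩
  have h3 := ht2 h2
  have h4 : b⁻¹ * b' ∈ U := h3
  rw [← he] at h4
  simpa using h4

end Pool.Agent.Work.MP_20070e_gt.Y
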