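import Mathlib
import Pool.Agent.Work.MP_20070e_gt.Y.YTop

/-!
# Y/YNull (M): the wandering part of a small open set is a null set

Let `B' = {g ∈ B | ∀ k ≥ 1, ∀ γ ∈ Γ, a^k g γ ∉ B}`. It is measurable: `B` intersected with the closed set `⋂_{k, γ} {g | a^k g γ ∉ B}`. For `k : ℕ` let `A_k = {a^k b γ : b ∈ B', γ ∈ Γ} = ⋃_{γ ∈ Γ} a^k B' γ` (countable union of measurable sets: preimages of `B'` under
`x ↦ a^{-k} x γ⁻¹`) and `E_k = F ∩ A_k`.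

(1) `A_k` and `A_l` are disjoint for `k > l`: if `a^k b γ = a^l b' γ'` then `a^{k-l} b (γ γ'⁻¹) = b' ∈ B`, contradiction to `b ∈ B'`.

(2) `μ B' ≤ μ E_k`: `μ B' = μ (a^k B')` (left invariance). Every `x ∈ a^k B'` has some `γ ∈ Γ` with `x γ ∈ F`: `a^k B' ⊆ ⋃_γ {x ∈ a^k B' | x γ ∈ F}`, and by right invariance `μ {x ∈ a^k B' | x γ ∈ F} = μ (F ∩ a^k B' γ)`. The sets `a^k B' γ`, `γ ∈ Γ`, are
pairwise disjoint: `a^k b γ = a^k b' γ'` gives `b (γ γ'⁻¹) = b'`, so `γ = γ'` by `hsm`. So `μ B' ≤ ∑_γ μ (F ∩ a^k B' γ) = μ (⋃_γ F ∩ a^k B' γ) = μ E_k`.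

(3) `∑_k μ B' ≤ ∑_k μ E_k = μ (⋃ E_k) ≤ μ F < ⊤`, so `μ B' = 0` (`ENNReal.tsum_const_eq_top_of_ne_zero`).
-/

set_option autoImplicit false

open Matrix Topology Metric Filter MeasureTheory

namespace Pool.Agent.Work.MP_20070e_gt.Y

open Pool.Agent.Work.MP_20070e_gt.X

theorem wander_null {n : ℕ} {Γ : Subgroup (SLn n)} (hc : (Γ : Set (SLn n)).Countable)
    [MeasurableSpace (SLn n)] [BorelSpace (SLn n)] (μ : Measure (SLn n)) [μ.IsMulLeftInvariant]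
    [μ.IsMulRightInvariant] (F : Set (SLn n)) (hF : MeasurableSet F) (hFt : μ F < ⊤)
    (hFΓ : ∀ g : SLn n, ∃ γ ∈ Γ, g * γ ∈ F) (a : SLn n) (B : Set (SLn n)) (hB : IsOpen B)
    (hsm : ∀ b ∈ B, ∀ b' ∈ B, ∀ γ ∈ Γ, b * γ = b' → γ = 1) :
    μ {g | g ∈ B ∧ ∀ k : ℕ, 1 ≤ k → ∀ γ ∈ Γ, a ^ k * g * γ ∉ B} = 0 := by
  classical
  have hcc : Countable Γ := hc.to_subtype
  set W : Set (SLn n) := {g | g ∈ B ∧ ∀ k : ℕ, 1 ≤ k → ∀ γ ∈ Γ, a ^ k * g * γ ∉ B} with hW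
  -- measurability
  have hWm : MeasurableSet W := by
    have hcl : IsClosed {g : SLn n | ∀ k : ℕ, 1 ≤ k → ∀ γ ∈ Γ, a ^ k * g * γ ∉ B} := by
      have he : {g : SLn n | ∀ k : ℕ, 1 ≤ k → ∀ γ ∈ Γ, a ^ k * g * γ ∉ B} =
          ⋂ (k : ℕ), ⋂ (_ : 1 ≤ k), ⋂ (γ : SLn n), ⋂ (_ : γ ∈ Γ),
            (fun g : SLn n => a ^ k * g * γ) ⁻¹' Bᶜ := by
        ext g
        simp only [Set.mem_ofPred_eq, Set.mem_iInter, Set.mem_preimage, Set.mem_compl_iff]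
      rw [he]
      refine isClosed_iInter fun k => isClosed_iInter fun _ => isClosed_iInter fun γ =>
        isClosed_iInter fun _ => ?_
      exact hB.isClosed_compl.preimage (by fun_prop)
    have he2 : W = B ∩ {g : SLn n | ∀ k : ℕ, 1 ≤ k → ∀ γ ∈ Γ, a ^ k * g * γ ∉ B} := by
      ext g
      simp only [hW, Set.mem_ofPred_eq, Set.mem_inter_iff]
    rw [he2]
    exact hB.measurableSet.inter hcl.measurableSet
  -- the translates
  let C : ℕ → Γ → Set (SLn n) := fun k γ => (fun x => (a ^ k)⁻¹ * x * (γ : SLn n)⁻¹) ⁻¹' W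
  have hCm : ∀ k γ, MeasurableSet (C k γ) := by
    intro k γ
    have hcont : Continuous (fun x : SLn n => (a ^ k)⁻¹ * x * (γ : SLn n)⁻¹) := by fun_prop
    exact hcont.measurable hWm
  have hCmem : ∀ k γ x, x ∈ C k γ ↔ (a ^ k)⁻¹ * x * (γ : SLn n)⁻¹ ∈ W := fun _ _ _ => Iff.rfl
  -- same level: disjoint
  have hdis : ∀ k, Pairwise (Function.onFun Disjoint (fun γ : Γ => F ∩ C k γ)) := by
    intro k γ δ hne
    rw [Function.onFun, Set.disjoint_left]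
    rintro x ⟨_, hx1⟩ ⟨_, hx2⟩
    rw [hCmem] at hx1 hx2
    apply hne
    have hmem : (γ : SLn n) * (δ : SLn n)⁻¹ ∈ Γ := Γ.mul_mem γ.2 (Γ.inv_mem δ.2)
    have h := hsm _ hx1.1 _ hx2.1 _ hmem (by group)
    have h2 : (γ : SLn n) = (δ : SLn n) := by
      rw [mul_inv_eq_one] at h
      exact h
    exact Subtype.ext h2
  let E : ℕ → Set (SLn n) := fun k => ⋃ γ : Γ, F ∩ C k γ
  have hEm : ∀ k, MeasurableSet (E k) := fun k => MeasurableSet.iUnion fun γ => hF.inter (hCm k γ)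
  -- different levels: disjoint
  have hEdis : Pairwise (Function.onFun Disjoint E) := by
    have hlt : ∀ k l : ℕ, l < k → Disjoint (E k) (E l) := by
      intro k l hkl
      rw [Set.disjoint_left]
      intro x hx1 hx2
      obtain ⟨γ, _, hγ⟩ := Set.mem_iUnion.1 hx1
      obtain ⟨δ, _, hδ⟩ := Set.mem_iUnion.1 hx2
      rw [hCmem] at hγ hδ
      have hmem : (γ : SLn n) * (δ : SLn n)⁻¹ ∈ Γ := Γ.mul_mem γ.2 (Γ.inv_mem δ.2)
      have h := hγ.2 (k - l) (by omega) _ hmem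
      apply h
      have he : a ^ (k - l) * ((a ^ k)⁻¹ * x * (γ : SLn n)⁻¹) * ((γ : SLn n) * (δ : SLn n)⁻¹) =
          (a ^ l)⁻¹ * x * (δ : SLn n)⁻¹ := by
        have h3 : a ^ (k - l) * (a ^ k)⁻¹ = (a ^ l)⁻¹ := by
          have h4 : a ^ k = a ^ l * a ^ (k - l) := by rw [← pow_add]; congr 1; omega
          rw [h4, _root_.mul_inv_rev, mul_inv_cancel_left]
        calc a ^ (k - l) * ((a ^ k)⁻¹ * x * (γ : SLn n)⁻¹) * ((γ : SLn n) * (δ : SLn n)⁻¹)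
            = (a ^ (k - l) * (a ^ k)⁻¹) * x * (δ : SLn n)⁻¹ := by group
          _ = (a ^ l)⁻¹ * x * (δ : SLn n)⁻¹ := by rw [h3]
      rw [he]
      exact hδ.1
    intro k l hne
    rcases lt_or_gt_of_ne hne with h | h
    · exact (hlt l k h).symm
    · exact hlt k l h
  -- the measure of `W` is at most that of `E k`
  have hle : ∀ k, μ W ≤ μ (E k) := by
    intro k
    have h1 : μ W = μ ((fun x => (a ^ k)⁻¹ * x) ⁻¹' W) := (measure_preimage_mul μ _ W).symm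
    have h2 : (fun x => (a ^ k)⁻¹ * x) ⁻¹' W ⊆
        ⋃ γ : Γ, (fun x : SLn n => x * (γ : SLn n)) ⁻¹' (F ∩ C k γ) := by
      intro x hx
      obtain ⟨γ, hγ, hγF⟩ := hFΓ x
      refine Set.mem_iUnion.2 ⟨⟨γ, hγ⟩, hγF, ?_⟩
      rw [hCmem]
      have he : (a ^ k)⁻¹ * (x * γ) * γ⁻¹ = (a ^ k)⁻¹ * x := by group
      show (a ^ k)⁻¹ * (x * γ) * γ⁻¹ ∈ W
      rw [he]
      exact hx
    calc μ W = μ ((fun x => (a ^ k)⁻¹ * x) ⁻¹' W) := h1
      _ ≤ μ (⋃ γ : Γ, (fun x : SLn n => x * (γ : SLn n)) ⁻¹' (F ∩ C k γ)) := measure_mono h2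
      _ ≤ ∑' γ : Γ, μ ((fun x : SLn n => x * (γ : SLn n)) ⁻¹' (F ∩ C k γ)) := measure_iUnion_le _
      _ = ∑' γ : Γ, μ (F ∩ C k γ) := by
          congr 1
          funext γ
          exact measure_preimage_mul_right μ _ _
      _ = μ (E k) := (measure_iUnion (hdis k) fun γ => hF.inter (hCm k γ)).symm
  -- conclusion
  by_contra hne
  have h1 : ∑' _ : ℕ, μ W = ⊤ := ENNReal.tsum_const_eq_top_of_ne_zero hne
  have h2 : ∑' _ : ℕ, μ W ≤ ∑' k : ℕ, μ (E k) := ENNReal.tsum_le_tsum hle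
  have h3 : ∑' k : ℕ, μ (E k) = μ (⋃ k, E k) := (measure_iUnion hEdis hEm).symm
  have h4 : μ (⋃ k, E k) ≤ μ F := by
    refine measure_mono (Set.iUnion_subset fun k => Set.iUnion_subset fun γ => Set.inter_subset_left)
  rw [h1] at h2
  exact absurd (lt_of_le_of_lt (h2.trans (h3.trans_le h4)) hFt) (lt_irrefl _)

end Pool.Agent.Work.MP_20070e_gt.Y
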