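import Mathlib
import Pool.Agent.Work.MP_20070e_gt.Y.YTop
import Pool.Agent.Work.MP_20070e_gt.X.El
import Pool.Agent.Work.MP_20070e_gt.T

/-!
# Y/YUni (M): Haar measure on `SL_n(ℝ)`, `n ≥ 3`, is right invariant

`Δ = modularCharacterFun : G → ℝ≥0` is multiplicative (`modularCharacterFun_map_mul`) and positive. For `i ≠ j` choose `l ≠ i, j` (`n = m + 1 ≥ 3`): by `tv_comm` (`X/El`) `tv (i j) (s * 1) = tv (i l) s * tv (l j) 1 * tv (i l) (-s) * tv (l j) (-1)`,
and `tv (-s) = (tv s)⁻¹`, so `Δ (tv (i j) s) = 1` (`ℝ≥0` is commutative). By `sl_induction` (`../T.lean`) `Δ = 1` on `G`. Then `map_right_mul_eq_modularCharacterFun_smul` (`Mathlib/MeasureTheory/Group/ModularCharacter.lean`) gives `map (· * g) μ = μ`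
(the regularity of `μ` required there is automatic: locally compact second countable).
-/

set_option autoImplicit false

open Matrix Topology Metric Filter MeasureTheory

namespace Pool.Agent.Work.MP_20070e_gt.Y

open Pool.Agent.Work.MP_20070e_gt.X

private theorem tv_neg {n : ℕ} {i j : Fin n} (hij : i ≠ j) (t : ℝ) :
    tv hij (-t) = (tv hij t)⁻¹ := by
  exact (SpecialLinearGroup.transvection_inv hij t).symm

private theorem modular_one {m : ℕ} (hm : 2 ≤ m) (g : SLn (m + 1)) :
    Measure.modularCharacterFun g = 1 := by
  refine sl_induction (n := m + 1) (by omega) (fun g => Measure.modularCharacterFun g = 1)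
    ?_ ?_ g
  · intro i j hij s
    obtain ⟨l, hl⟩ : ∃ l : Fin (m + 1), l ∉ ({i, j} : Finset (Fin (m + 1))) := by
      by_contra hcon
      push Not at hcon
      have h1 : (Finset.univ : Finset (Fin (m + 1))) ⊆ {i, j} := fun x _ => hcon x
      have h2 := Finset.card_le_card h1
      have h3 : ({i, j} : Finset (Fin (m + 1))).card ≤ 2 := Finset.card_le_two
      rw [Finset.card_univ, Fintype.card_fin] at h2
      omega
    rw [Finset.mem_insert, Finset.mem_singleton, not_or] at hl
    have hil : i ≠ l := Ne.symm hl.1
    have hlj : l ≠ j := hl.2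
    have h1 := tv_comm hil hlj hij s 1
    rw [mul_one, tv_neg, tv_neg] at h1
    show Measure.modularCharacterFun (tv hij s) = 1
    have h4 : Measure.modularCharacter (tv hij s) = 1 := by
      rw [← h1, map_mul, map_mul, map_mul]
      have h2 : Measure.modularCharacter (tv hil s) * Measure.modularCharacter (tv hil s)⁻¹ = 1 := by
        rw [← map_mul, mul_inv_cancel, map_one]
      have h3 : Measure.modularCharacter (tv hlj 1) * Measure.modularCharacter (tv hlj 1)⁻¹ = 1 := by
        rw [← map_mul, mul_inv_cancel, map_one]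
      calc _ = (Measure.modularCharacter (tv hil s) * Measure.modularCharacter (tv hil s)⁻¹) *
            (Measure.modularCharacter (tv hlj 1) * Measure.modularCharacter (tv hlj 1)⁻¹) := by
              ring
        _ = 1 := by rw [h2, h3, mul_one]
    exact h4
  · intro a b ha hb
    show Measure.modularCharacterFun (a * b) = 1
    rw [Measure.modularCharacterFun_map_mul]
    rw [show Measure.modularCharacterFun a = 1 from ha,
      show Measure.modularCharacterFun b = 1 from hb, mul_one]

theorem haar_right {m : ℕ} (hm : 2 ≤ m) [MeasurableSpace (SLn (m + 1))]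
    [BorelSpace (SLn (m + 1))] (μ : Measure (SLn (m + 1))) [μ.IsHaarMeasure] :
    μ.IsMulRightInvariant := by
  constructor
  intro g
  rw [Measure.map_right_mul_eq_modularCharacterFun_smul μ g, modular_one hm, one_smul]

end Pool.Agent.Work.MP_20070e_gt.Y
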