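import Mathlib
import Pool.Agent.Work.MP_20070e_gt.Y.YUni
import Pool.Agent.Work.MP_20070e_gt.Y.YNull

/-!
# Y/YRec (S-M): recurrence for all lattices of `SL_n(ℝ)`, `n ≥ 3`

Let the `MeasurableSpace` be `borel _`, `μ = haar` (`MeasureTheory.Measure.haar`; locally compact group), `F` from `IsLattice`, `haar_right`. Let `𝓑` be a countable basis of the topology (`TopologicalSpace.countableBasis`). For `a ∈ S`, `N : ℕ`, `B ∈ 𝓑` which is small (in the
sense of `hsm` in `wander_null`) let `W = {g | g ∈ B ∧ ∀ k ≥ 1, ∀ γ ∈ Γ, (a^(N+1))^k g γ ∉ B}`: a null set by `wander_null`. The union of all of them is a null set (`measure_biUnion_null_iff` or `measure_iUnion_null`), and `μ O > 0` (`IsOpen.measure_pos`), so some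
`g ∈ O` is in none of them.

Let `a ∈ S`. Let `V_j` be a decreasing basis of neighbourhoods of `g` (`(𝓝 g).exists_antitone_basis`, first countable). For `j` choose `B ∈ 𝓑` with `g ∈ B ⊆ V_j ∩ B₀`, `B₀` from `small_nhds` (subsets of small sets are small). As `g ∉ W` for `(a, j, B)`, there are `k ≥ 1` and `γ_j ∈ Γ` with
`(a^(j+1))^k g γ_j ∈ B ⊆ V_j`; put `k_j = (j+1) k ≥ j + 1`. So `k_j → ∞` and `a^{k_j} g γ_j → g`.
-/

set_option autoImplicit false

open Matrix Topology Metric Filter MeasureTheory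

namespace Pool.Agent.Work.MP_20070e_gt.Y

open Pool.Agent.Work.MP_20070e_gt.X

theorem rec_dense {m : ℕ} (hm : 2 ≤ m) {Γ : Subgroup (SLn (m + 1))} (hΓ : IsLattice Γ)
    (S : Set (SLn (m + 1))) (hS : S.Countable) (O : Set (SLn (m + 1))) (hO : IsOpen O)
    (hne : O.Nonempty) : ∃ g ∈ O, ∀ a ∈ S, Recur Γ a g := by
  classical
  letI : MeasurableSpace (SLn (m + 1)) := borel _
  haveI : BorelSpace (SLn (m + 1)) := ⟨rfl⟩
  let μ : Measure (SLn (m + 1)) := Measure.haar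
  haveI hμ : μ.IsHaarMeasure := Measure.isHaarMeasure_haarMeasure _
  haveI hr : μ.IsMulRightInvariant := haar_right hm μ
  obtain ⟨hd, hF⟩ := hΓ
  obtain ⟨F, hFm, hFt, hFΓ⟩ := hF _ inferInstance μ hμ
  have hc := countable_of_discrete hd
  let W : SLn (m + 1) → ℕ → Set (SLn (m + 1)) → Set (SLn (m + 1)) := fun a N B =>
    {g | g ∈ B ∧ ∀ k : ℕ, 1 ≤ k → ∀ γ ∈ Γ, (a ^ (N + 1)) ^ k * g * γ ∉ B}
  let small : Set (SLn (m + 1)) → Prop := fun B =>
    ∀ b ∈ B, ∀ b' ∈ B, ∀ γ ∈ Γ, b * γ = b' → γ = 1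
  have hnull : μ (⋃ a ∈ S, ⋃ N : ℕ, ⋃ B ∈ {B ∈ TopologicalSpace.countableBasis (SLn (m + 1)) |
      small B}, W a N B) = 0 := by
    rw [measure_biUnion_null_iff hS]
    intro a ha
    rw [measure_iUnion_null_iff]
    intro N
    rw [measure_biUnion_null_iff
      ((TopologicalSpace.countable_countableBasis _).mono (Set.sep_subset _ _))]
    rintro B ⟨hB, hsm⟩
    exact wander_null hc μ F hFm hFt hFΓ (a ^ (N + 1)) B
      (TopologicalSpace.isOpen_of_mem_countableBasis hB) hsm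
  have hpos : 0 < μ O := hO.measure_pos μ hne
  obtain ⟨g, hgO, hg⟩ : ∃ g ∈ O, g ∉ ⋃ a ∈ S, ⋃ N : ℕ,
      ⋃ B ∈ {B ∈ TopologicalSpace.countableBasis (SLn (m + 1)) | small B}, W a N B := by
    by_contra hcon
    have hcon2 : O ⊆ ⋃ a ∈ S, ⋃ N : ℕ,
        ⋃ B ∈ {B ∈ TopologicalSpace.countableBasis (SLn (m + 1)) | small B}, W a N B := by
      intro g hgO
      by_contra h
      exact hcon ⟨g, hgO, h⟩
    exact hpos.ne' (measure_mono_null hcon2 hnull)
  have key : ∀ a ∈ S, ∀ (j : ℕ) (V : Set (SLn (m + 1))), V ∈ 𝓝 g →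
      ∃ k, j + 1 ≤ k ∧ ∃ γ ∈ Γ, a ^ k * g * γ ∈ V := by
    intro a ha j V hV
    obtain ⟨B₀, hB₀o, hgB₀, hB₀s⟩ := small_nhds hd g
    obtain ⟨B, hB, hgB, hBsub⟩ :=
      (TopologicalSpace.isBasis_countableBasis (SLn (m + 1))).mem_nhds_iff.1
        (Filter.inter_mem hV (hB₀o.mem_nhds hgB₀))
    have hsm : small B := fun b hb b' hb' γ hγ h =>
      hB₀s b (hBsub hb).2 b' (hBsub hb').2 γ hγ h
    have hgW : g ∉ W a j B := fun h => hg (by
      simp only [Set.mem_iUnion]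
      exact ⟨a, ha, j, B, ⟨hB, hsm⟩, h⟩)
    have h1 : ¬ ∀ k : ℕ, 1 ≤ k → ∀ γ ∈ Γ, (a ^ (j + 1)) ^ k * g * γ ∉ B :=
      fun h => hgW ⟨hgB, h⟩
    push Not at h1
    obtain ⟨k, hk, γ, hγ, hmem⟩ := h1
    refine ⟨(j + 1) * k, Nat.le_mul_of_pos_right _ hk, γ, hγ, ?_⟩
    rw [pow_mul]
    exact (hBsub hmem).1
  refine ⟨g, hgO, fun a ha => ?_⟩
  obtain ⟨V, hV⟩ := (𝓝 g).exists_antitone_basis
  choose k hk γ hγ hmem using fun j => key a ha j (V j) (hV.1.mem_of_mem trivial)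
  refine ⟨k, γ, ?_, hγ, hV.tendsto hmem⟩
  exact tendsto_atTop_mono (fun j => (Nat.le_succ j).trans (hk j)) tendsto_id

end Pool.Agent.Work.MP_20070e_gt.Y
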