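import Mathlib
import Pool.Agent.Work.MP_20070e_gt.Y.YRec
import Pool.Agent.Work.MP_20070e_gt.X.El

/-!
# Y/YApp (M): elements of the lattice which are almost projections (onto a dense set of directions)

The set `O' = {g | sphAct g⁻¹ (oo m) ∈ O}` is open (`sphAct_continuous`) and nonempty (`exists_rot`). `rec_dense` with `S = {aa m (-1)}` gives `g ∈ O'` and `κ_j := (aa m (-1))^{k_j} g γ_j → g`. As `(aa m (-1))^k = (aa m k)⁻¹` (`aa_pow`, `aa_neg`), `γ_j = g⁻¹ (aa m k_j) κ_j`.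
Let `x = sphAct g⁻¹ (oo m) ∈ O`. For `z_j → z'`: `v_j := lin κ_j z_j → lin g z'` (`lin_continuous`), `lin (aa m k) v = e^{-k} v + ((e^{m k} - e^{-k}) v_0) e₀` (`lin_aa`), so `e^{-m k_j} lin (aa m k_j) v_j → (lin g z')_0 e₀` (`k_j → ∞`, `m ≥ 1`), and
`e^{-m k_j} lin γ_j z_j → (lin g z')_0 lin g⁻¹ e₀ = (lin g z')_0 ‖lin g⁻¹ e₀‖ x`. Take `s_j = e^{-m k_j} / ‖lin g⁻¹ e₀‖` and `κ = g`.
-/

set_option autoImplicit false

open Matrix Topology Metric Filter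

namespace Pool.Agent.Work.MP_20070e_gt.Y

open Pool.Agent.Work.MP_20070e_gt.X

variable {m : ℕ}

private theorem lin_smul' {n : ℕ} (g : SLn n) (c : ℝ) (v : Eu n) : lin g (c • v) = c • lin g v := by
  rw [lin_eq, lin_eq, map_smul]

theorem approx_lat (hm : 2 ≤ m) {Γ : Subgroup (SLn (m + 1))} (hΓ : IsLattice Γ)
    (O : Set (Sph (m + 1))) (hO : IsOpen O) (hne : O.Nonempty) :
    ∃ x ∈ O, ∃ (γ : ℕ → SLn (m + 1)) (s : ℕ → ℝ) (κ : SLn (m + 1)),
      (∀ k, γ k ∈ Γ) ∧ (∀ k, 0 < s k) ∧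
      ∀ (z : ℕ → Eu (m + 1)) (z' : Eu (m + 1)), Tendsto z atTop (𝓝 z') →
        Tendsto (fun k => s k • lin (γ k) (z k)) atTop (𝓝 ((lin κ z') 0 • (x : Eu (m + 1)))) := by
  have hi : Continuous (fun g : SLn (m + 1) => g⁻¹) := continuous_inv
  have hi2 : Continuous (fun g : SLn (m + 1) => (g⁻¹, oo m)) := hi.prodMk continuous_const
  have hc : Continuous (fun g : SLn (m + 1) => sphAct g⁻¹ (oo m)) :=
    Continuous.comp (g := fun p : SLn (m + 1) × Sph (m + 1) => sphAct p.1 p.2)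
      (f := fun g : SLn (m + 1) => (g⁻¹, oo m)) sphAct_continuous hi2
  have hO' : IsOpen {g : SLn (m + 1) | sphAct g⁻¹ (oo m) ∈ O} := hO.preimage hc
  have hne' : {g : SLn (m + 1) | sphAct g⁻¹ (oo m) ∈ O}.Nonempty := by
    obtain ⟨x0, hx0⟩ := hne
    obtain ⟨g0, -, -, hg0⟩ := exists_rot (by omega : 1 ≤ m) x0
    refine ⟨g0⁻¹, ?_⟩
    show sphAct (g0⁻¹)⁻¹ (oo m) ∈ O
    rw [inv_inv, hg0]
    exact hx0
  obtain ⟨g, hgO, hrec⟩ := rec_dense hm hΓ {aa m (-1)} (Set.countable_singleton _) _ hO' hne'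
  obtain ⟨k, γ, hk, hγ, hlim⟩ := hrec _ rfl
  have hpow : ∀ j, (aa m (-1)) ^ (k j) = (aa m (k j : ℝ))⁻¹ := by
    intro j
    rw [aa_pow, ← aa_neg]
    congr 1
    ring
  have hne0 : e0 m ≠ 0 := by
    intro h
    have h1 := norm_e0 m
    rw [h, norm_zero] at h1
    exact zero_ne_one h1
  have hl : 0 < ‖lin g⁻¹ (e0 m)‖ := norm_pos_iff.2 (lin_ne_zero g⁻¹ hne0)
  refine ⟨sphAct g⁻¹ (oo m), hgO, γ,
    fun j => ‖lin g⁻¹ (e0 m)‖⁻¹ * Real.exp (-(m * (k j : ℝ))), g, hγ,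
    fun j => mul_pos (inv_pos.2 hl) (Real.exp_pos _), ?_⟩
  intro z z' hz
  obtain ⟨κ, hκd⟩ : ∃ κ : ℕ → SLn (m + 1), ∀ j, κ j = (aa m (k j : ℝ))⁻¹ * g * γ j :=
    ⟨_, fun _ => rfl⟩
  have hκ : Tendsto κ atTop (𝓝 g) :=
    hlim.congr fun j => by rw [hpow j, hκd j]
  have hw : Tendsto (fun j => lin (κ j) (z j)) atTop (𝓝 (lin g z')) :=
    (lin_continuous.tendsto (g, z')).comp (hκ.prodMk_nhds hz)
  have ht : Tendsto (fun j => Real.exp (-((m + 1) * (k j : ℝ)))) atTop (𝓝 0) := by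
    refine Real.tendsto_exp_neg_atTop_nhds_zero.comp ?_
    refine Tendsto.const_mul_atTop (by positivity) ?_
    exact tendsto_natCast_atTop_atTop.comp hk
  have hw0 : Tendsto (fun j => (lin (κ j) (z j)) 0) atTop (𝓝 ((lin g z') 0)) :=
    ((by fun_prop : Continuous (fun v : Eu (m + 1) => v 0)).tendsto _).comp hw
  have h1 : Tendsto (fun j => Real.exp (-((m + 1) * (k j : ℝ))) • lin (κ j) (z j) +
      ((1 - Real.exp (-((m + 1) * (k j : ℝ)))) * (lin (κ j) (z j)) 0) • e0 m) atTop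
      (𝓝 ((0 : ℝ) • lin g z' + ((1 - 0) * (lin g z') 0) • e0 m)) :=
    (ht.smul hw).add (((tendsto_const_nhds.sub ht).mul hw0).smul tendsto_const_nhds)
  rw [zero_smul, zero_add, sub_zero, one_mul] at h1
  have h2 : Continuous (fun v : Eu (m + 1) => lin g⁻¹ v) :=
    lin_continuous.comp (continuous_const.prodMk continuous_id)
  have h3 := ((h2.tendsto _).comp h1).const_smul (‖lin g⁻¹ (e0 m)‖⁻¹)
  rw [lin_smul', smul_comm] at h3
  refine h3.congr (fun j => ?_)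
  simp only [Function.comp_apply]
  have h4 : γ j = g⁻¹ * aa m (k j : ℝ) * κ j := by
    rw [hκd j]
    group
  have h5 : lin (γ j) (z j) = lin g⁻¹ (lin (aa m (k j : ℝ)) (lin (κ j) (z j))) := by
    rw [← lin_mul, ← lin_mul, ← h4]
  rw [h5, lin_aa, mul_smul (‖lin g⁻¹ (e0 m)‖⁻¹) (Real.exp (-(m * (k j : ℝ)))), ← lin_smul' g⁻¹ (Real.exp (-(m * (k j : ℝ))))]
  congr 2
  rw [smul_add, smul_smul, smul_smul]
  have e1 : Real.exp (-(m * (k j : ℝ))) * Real.exp (-(k j : ℝ)) =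
      Real.exp (-((m + 1) * (k j : ℝ))) := by
    rw [← Real.exp_add]
    congr 1
    ring
  have e2 : Real.exp (-(m * (k j : ℝ))) * Real.exp (m * (k j : ℝ)) = 1 := by
    rw [← Real.exp_add, neg_add_cancel, Real.exp_zero]
  rw [e1]
  congr 2
  rw [← mul_assoc, mul_sub, e1, e2]

end Pool.Agent.Work.MP_20070e_gt.Y
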