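import Mathlib
import Pool.Agent.Work.MP_20070e_gt.Y.YRec
import Pool.Agent.Work.MP_20070e_gt.X.El
import Pool.Agent.Work.MP_20070e_gt.X.SAsym

/-!
# Y/YMin (M): a lattice acts minimally on the sphere

Let `z ∈ Z`.

(1) If `g` is recurrent under `a = aa m 1` and `(lin g z)_0 > 0`, then `sphAct g⁻¹ (oo m) ∈ Z`. Let `κ_j = a^{k_j} g γ_j → g`. `z_j := sphAct γ_j⁻¹ z ∈ Z`, and `γ_j⁻¹ = κ_j⁻¹ a^{k_j} g`, `a^{k_j} = aa m k_j` (`aa_pow`), so
`z_j = sphAct κ_j⁻¹ (sphAct (aa m k_j) (sphAct g z)) → sphAct g⁻¹ (oo m)` by `aa_sph` (`X/SAsym`; the coordinate `0` of `sphAct g z` is positive) and `sphAct_continuous`. `Z` is closed.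

(2) The set `O = {g | (lin g z)_0 > 0}` is open, and `{g | sphAct g⁻¹ (oo m) ∈ Z}` is closed; recurrent points are dense in `O` (`rec_dense` with `S = {aa m 1}`), so by (1) `sphAct g⁻¹ (oo m) ∈ Z` for every `g ∈ O`.

(3) Let `x ∈ S^m`, `x ≠ -z`. There is `g ∈ O` with `sphAct g⁻¹ (oo m) = x`: let `r` be as in `exists_rot` (`lin r e₀ = x`), `w = lin r⁻¹ z` (nonzero; `w` is not a nonpositive multiple of `e₀`: otherwise `z` is a nonpositive multiple of `x`, so `z = -x`). If `w_0 > 0` take `g = r⁻¹`.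
Otherwise some `w_j ≠ 0`, `j ≠ 0`, and `g = tv (0 ≠ j) t * r⁻¹` has `(lin g z)_0 = w_0 + t w_j > 0` for a suitable `t`, and `lin g x = e₀` (`tv` fixes `e₀`). So `x ∈ Z`.

(4) `-z ∈ Z`: apply (3) to another point `z' ∈ Z`, `z' ≠ z`, `z' ≠ -z` (exists by (3) and `m ≥ 1`), since `-z ≠ -z'`. So `Z = univ`.
-/

set_option autoImplicit false

open Matrix Topology Metric Filter

namespace Pool.Agent.Work.MP_20070e_gt.Y

open Pool.Agent.Work.MP_20070e_gt.X

variable {m : ℕ}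

private theorem coord_cont : Continuous (fun v : Eu (m + 1) => v 0) := by fun_prop

private theorem tv_coord {j : Fin (m + 1)} (hj : (0 : Fin (m + 1)) ≠ j) (t : ℝ) (w : Eu (m + 1)) :
    (lin (tv hj t) w) 0 = w 0 + t * w j := by
  change ((tv hj t).1 *ᵥ w.ofLp) 0 = w 0 + t * w j
  rw [SpecialLinearGroup.transvection_coe, Matrix.add_mulVec, Matrix.one_mulVec, Pi.add_apply]
  congr 1
  rw [Matrix.mulVec, dotProduct, Finset.sum_eq_single j]
  · rw [Matrix.single_apply, if_pos ⟨rfl, rfl⟩]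
  · intro k _ hk
    rw [Matrix.single_apply, if_neg (fun h => hk h.2.symm), zero_mul]
  · intro h
    exact absurd (Finset.mem_univ _) h

private theorem sph_td {n : ℕ} {g : ℕ → SLn n} {g' : SLn n}
    {x : ℕ → Sph n} {x' : Sph n}
    (hg : Tendsto g atTop (𝓝 g')) (hx : Tendsto x atTop (𝓝 x')) :
    Tendsto (fun j => sphAct (g j) (x j)) atTop (𝓝 (sphAct g' x')) := by
  have h2 : Tendsto (fun j => (g j, x j)) atTop (𝓝 (g', x')) := hg.prodMk_nhds hx
  have h1 := (sphAct_continuous (n := n)).tendsto (g', x')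
  have h3 := h1.comp h2
  simpa only [Function.comp_def] using h3

private theorem step1 {Γ : Subgroup (SLn (m + 1))}
    (Z : Set (Sph (m + 1))) (hcl : IsClosed Z) (hinv : ∀ γ ∈ Γ, ∀ z ∈ Z, sphAct γ z ∈ Z)
    (z : Sph (m + 1)) (hz : z ∈ Z) (g : SLn (m + 1)) (hg : 0 < (lin g (z : Eu (m + 1))) 0)
    (hrec : Recur Γ (aa m 1) g) : sphAct g⁻¹ (oo m) ∈ Z := by
  obtain ⟨k, γ, hk, hγ, hlim⟩ := hrec
  have hpos : 0 < ((sphAct g z : Sph (m + 1)) : Eu (m + 1)) 0 := by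
    have h2 : (lin g (z : Eu (m + 1))) ≠ 0 := by
      intro h
      rw [h] at hg
      exact lt_irrefl _ hg
    have h3 : ((sphAct g z : Sph (m + 1)) : Eu (m + 1)) 0 =
        (‖lin g (z : Eu (m + 1))‖)⁻¹ * (lin g (z : Eu (m + 1))) 0 := rfl
    rw [h3]
    exact mul_pos (inv_pos.2 (norm_pos_iff.2 h2)) hg
  have h3 : Tendsto (fun j => sphAct (aa m (k j)) (sphAct g z)) atTop (𝓝 (oo m)) :=
    aa_sph k hk (fun _ => sphAct g z) _ tendsto_const_nhds hpos
  have h4 : Tendsto (fun j => sphAct ((aa m 1) ^ (k j) * g * γ j)⁻¹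
      (sphAct (aa m (k j)) (sphAct g z))) atTop (𝓝 (sphAct g⁻¹ (oo m))) :=
    sph_td hlim.inv h3
  have h6 : ∀ j, sphAct ((aa m 1) ^ (k j) * g * γ j)⁻¹ (sphAct (aa m (k j)) (sphAct g z)) ∈ Z := by
    intro j
    have h7 : ((aa m 1) ^ (k j) * g * γ j)⁻¹ * (aa m (k j)) * g = (γ j)⁻¹ := by
      rw [aa_pow, mul_one, _root_.mul_inv_rev, _root_.mul_inv_rev, mul_assoc, mul_assoc,
        mul_assoc, inv_mul_cancel_left, inv_mul_cancel, mul_one]
    rw [← sphAct_mul, ← sphAct_mul, h7]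
    exact hinv _ (Γ.inv_mem (hγ j)) z hz
  exact hcl.mem_of_tendsto h4 (Eventually.of_forall h6)

private theorem o1 (z : Sph (m + 1)) : IsOpen {g : SLn (m + 1) | 0 < (lin g (z : Eu (m + 1))) 0} := by
  have h0 : Continuous (fun g : SLn (m + 1) => ((g, (z : Eu (m + 1))) : SLn (m + 1) × Eu (m + 1))) :=
    continuous_id.prodMk continuous_const
  have h1 : Continuous (fun g : SLn (m + 1) => lin g (z : Eu (m + 1))) := lin_continuous.comp h0
  have hc1 : Continuous (fun g : SLn (m + 1) => (lin g (z : Eu (m + 1))) 0) :=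
    coord_cont.comp h1
  exact isOpen_lt continuous_const hc1

private theorem o2 (Z : Set (Sph (m + 1))) (hcl : IsClosed Z) :
    IsOpen {g : SLn (m + 1) | sphAct g⁻¹ (oo m) ∉ Z} := by
  have h0 : Continuous (fun g : SLn (m + 1) => ((g⁻¹, oo m) : SLn (m + 1) × Sph (m + 1))) :=
    continuous_inv.prodMk continuous_const
  have hc2 : Continuous (fun g : SLn (m + 1) => sphAct g⁻¹ (oo m)) := by
    have h3 := (sphAct_continuous (n := m + 1)).comp h0
    simpa only [Function.comp_def] using h3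
  exact (hcl.preimage hc2).isOpen_compl
private theorem step2 (hm : 2 ≤ m) {Γ : Subgroup (SLn (m + 1))} (hΓ : IsLattice Γ)
    (Z : Set (Sph (m + 1))) (hcl : IsClosed Z) (hinv : ∀ γ ∈ Γ, ∀ z ∈ Z, sphAct γ z ∈ Z)
    (z : Sph (m + 1)) (hz : z ∈ Z) (g : SLn (m + 1)) (hg : 0 < (lin g (z : Eu (m + 1))) 0) :
    sphAct g⁻¹ (oo m) ∈ Z := by
  by_contra hcon
  obtain ⟨g', hg'O, hrec⟩ := rec_dense hm hΓ {aa m 1} (Set.countable_singleton _) _
    ((o1 z).inter (o2 Z hcl)) ⟨g, hg, hcon⟩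
  exact hg'O.2 (step1 Z hcl hinv z hz g' hg'O.1 (hrec (aa m 1) (Set.mem_singleton _)))

private theorem step3 (hm : 2 ≤ m) {Γ : Subgroup (SLn (m + 1))} (hΓ : IsLattice Γ)
    (Z : Set (Sph (m + 1))) (hcl : IsClosed Z) (hinv : ∀ γ ∈ Γ, ∀ z ∈ Z, sphAct γ z ∈ Z)
    (z : Sph (m + 1)) (hz : z ∈ Z) (x : Sph (m + 1)) (hx : x ≠ -z) : x ∈ Z := by
  obtain ⟨r, -, hr, hr2⟩ := exists_rot (by omega : 1 ≤ m) x
  have hA : ∀ h : SLn (m + 1), sphAct h⁻¹ (oo m) = oo m →
      0 < (lin h (lin r⁻¹ (z : Eu (m + 1)))) 0 → x ∈ Z := by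
    intro h hh hpos
    rw [← lin_mul] at hpos
    have h1 := step2 hm hΓ Z hcl hinv z hz (h * r⁻¹) hpos
    rwa [_root_.mul_inv_rev, inv_inv, sphAct_mul, hh, hr2] at h1
  by_cases hw : 0 < (lin r⁻¹ (z : Eu (m + 1))) 0
  · exact hA 1 (by rw [inv_one, sphAct_one]) (by rwa [lin_one])
  push Not at hw
  by_cases hj : ∃ j : Fin (m + 1), (0 : Fin (m + 1)) ≠ j ∧ (lin r⁻¹ (z : Eu (m + 1))) j ≠ 0
  · obtain ⟨j, hj0, hj⟩ := hj
    have hinvtv : ∀ t : ℝ, (tv hj0 t)⁻¹ = tv hj0 (-t) := fun t =>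
      SpecialLinearGroup.transvection_inv hj0 t
    refine hA (tv hj0 ((1 - (lin r⁻¹ (z : Eu (m + 1))) 0) / (lin r⁻¹ (z : Eu (m + 1))) j)) ?_ ?_
    · rw [hinvtv, sphAct_tv]
    · rw [tv_coord, div_mul_cancel₀ _ hj]
      linarith
  · exfalso
    push Not at hj
    have h1 : lin r⁻¹ (z : Eu (m + 1)) = ((lin r⁻¹ (z : Eu (m + 1))) 0) • e0 m := by
      ext i
      rw [PiLp.smul_apply, smul_eq_mul]
      by_cases hi : (0 : Fin (m + 1)) = i
      · subst hi
        simp [e0]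
      · rw [hj i hi]
        have : (e0 m) i = 0 := by
          unfold e0
          simp [Ne.symm hi]
        rw [this, mul_zero]
    have h2 : (z : Eu (m + 1)) = ((lin r⁻¹ (z : Eu (m + 1))) 0) • (x : Eu (m + 1)) := by
      have h3 := congrArg (lin r) h1
      rw [← lin_mul, mul_inv_cancel, lin_one, lin_eq r (_ • e0 m), map_smul, ← lin_eq, hr] at h3
      exact h3
    have h4 : |(lin r⁻¹ (z : Eu (m + 1))) 0| = 1 := by
      have h3 := congrArg norm h2
      rw [norm_smul, norm_eq_of_mem_sphere z, norm_eq_of_mem_sphere x, mul_one,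
        Real.norm_eq_abs] at h3
      exact h3.symm
    rw [abs_of_nonpos hw] at h4
    have h5 : (lin r⁻¹ (z : Eu (m + 1))) 0 = -1 := by linarith
    rw [h5] at h2
    apply hx
    apply Subtype.ext
    show (x : Eu (m + 1)) = -(z : Eu (m + 1))
    rw [h2, neg_smul, one_smul, neg_neg]

theorem minimal_sph_lat (hm : 2 ≤ m) {Γ : Subgroup (SLn (m + 1))} (hΓ : IsLattice Γ)
    (Z : Set (Sph (m + 1))) (hcl : IsClosed Z) (hinv : ∀ γ ∈ Γ, ∀ z ∈ Z, sphAct γ z ∈ Z)
    (hne : Z.Nonempty) : Z = Set.univ := by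
  obtain ⟨z, hz⟩ := hne
  have h3 := step3 hm hΓ Z hcl hinv
  have hex : ∃ x : Sph (m + 1), x ≠ z ∧ x ≠ -z := by
    have h10 : (1 : Fin (m + 1)) ≠ 0 := by
      intro h
      have h2 := congrArg Fin.val h
      rw [Fin.val_one', Fin.val_zero, Nat.mod_eq_of_lt (by omega)] at h2
      omega
    let e1 : Sph (m + 1) := ⟨EuclideanSpace.single 1 1, by
      rw [mem_sphere_zero_iff_norm]; simp⟩
    have ha0 : ((oo m : Sph (m + 1)) : Eu (m + 1)) 0 = 1 := by
      show (e0 m) 0 = 1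
      simp [e0]
    have hb0 : ((e1 : Sph (m + 1)) : Eu (m + 1)) 0 = 0 := by
      show (EuclideanSpace.single (1 : Fin (m + 1)) (1 : ℝ)) 0 = 0
      simp [h10.symm]
    by_cases h1 : oo m ≠ z ∧ oo m ≠ -z
    · exact ⟨oo m, h1⟩
    · refine ⟨e1, ?_, ?_⟩
      · intro h
        apply h1
        rw [← h]
        constructor
        · intro h2
          rw [h2, hb0] at ha0
          exact zero_ne_one ha0
        · intro h2
          rw [h2] at ha0
          change -((e1 : Eu (m + 1)) 0) = 1 at ha0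
          rw [hb0, neg_zero] at ha0
          exact zero_ne_one ha0
      · intro h
        apply h1
        have h2 : z = -e1 := by rw [h, neg_neg]
        rw [h2, neg_neg]
        constructor
        · intro h2
          rw [h2] at ha0
          change -((e1 : Eu (m + 1)) 0) = 1 at ha0
          rw [hb0, neg_zero] at ha0
          exact zero_ne_one ha0
        · intro h2
          rw [h2, hb0] at ha0
          exact zero_ne_one ha0
  obtain ⟨x, hx1, hx2⟩ := hex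
  have hxZ : x ∈ Z := h3 z hz x hx2
  rw [Set.eq_univ_iff_forall]
  intro y
  by_cases hy : y = -z
  · rw [hy]
    refine h3 x hxZ (-z) ?_
    intro h
    exact hx1 (neg_injective h).symm
  · exact h3 z hz y hy

end Pool.Agent.Work.MP_20070e_gt.Y
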