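import Mathlib
import Pool.Agent.Work.MP_20070e_gt.Y.YMin

/-!
# Y/YIrr (S): a lattice acts irreducibly on `ℝⁿ`

If `E ≠ ⊥` it contains a vector of norm one; `Z = {x : S^m | x ∈ E}` is closed (`Submodule.closed_of_finiteDimensional`), invariant (`sphAct γ x` is a multiple of `lin γ x`) and nonempty, so it is everything by `minimal_sph_lat`, and `E = ⊤` (normalise vectors).
-/

set_option autoImplicit false

open Matrix Topology Metric Filter

namespace Pool.Agent.Work.MP_20070e_gt.Y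

open Pool.Agent.Work.MP_20070e_gt.X

variable {m : ℕ}

theorem irreducible_lat (hm : 2 ≤ m) {Γ : Subgroup (SLn (m + 1))} (hΓ : IsLattice Γ)
    (E : Submodule ℝ (Eu (m + 1))) (hE : ∀ γ ∈ Γ, ∀ v ∈ E, lin γ v ∈ E) : E = ⊥ ∨ E = ⊤ := by
  by_cases h0 : E = ⊥
  · exact Or.inl h0
  right
  obtain ⟨v, hv, hv0⟩ := (Submodule.ne_bot_iff E).1 h0
  have hnorm : ∀ w : Eu (m + 1), w ≠ 0 → ‖w‖⁻¹ • w ∈ sphere (0 : Eu (m + 1)) 1 := by
    intro w hw
    rw [mem_sphere_zero_iff_norm, norm_smul, norm_inv, norm_norm,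
      inv_mul_cancel₀ (norm_ne_zero_iff.2 hw)]
  have hcl : IsClosed {x : Sph (m + 1) | (x : Eu (m + 1)) ∈ E} :=
    (E.closed_of_finiteDimensional).preimage continuous_subtype_val
  have hall := minimal_sph_lat hm hΓ {x : Sph (m + 1) | (x : Eu (m + 1)) ∈ E} hcl
    (fun γ hγ z hz => E.smul_mem _ (hE γ hγ _ hz))
    ⟨⟨‖v‖⁻¹ • v, hnorm v hv0⟩, E.smul_mem _ hv⟩
  rw [eq_top_iff]
  intro w _
  by_cases hw : w = 0
  · rw [hw]
    exact E.zero_mem
  · have h1 : (⟨‖w‖⁻¹ • w, hnorm w hw⟩ : Sph (m + 1)) ∈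
        {x : Sph (m + 1) | (x : Eu (m + 1)) ∈ E} := by
      rw [hall]
      trivial
    have h2 : ‖w‖⁻¹ • w ∈ E := h1
    have h3 := E.smul_mem ‖w‖ h2
    rwa [smul_smul, mul_inv_cancel₀ (norm_ne_zero_iff.2 hw), one_smul] at h3

end Pool.Agent.Work.MP_20070e_gt.Y
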