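import Mathlib
import Pool.Agent.Work.MP_20070e_gt.Y.YDefs

/-!
# Y/YEig (M): no common eigenvector (pure linear algebra)

Lemma A. If for every `r` there is `c` with `dg r * G * dg r⁻¹ = c G`, then either all the off-diagonal entries of `G` vanish or `G` is a multiple of some `E_ij`, `i ≠ j`. Indeed the entry `(k, l)` is multiplied by `ρ_r(k, l) = e^{m+1}` if `k = r ≠ l`, `e^{-(m+1)}` if `l = r ≠ k`, and `1`
otherwise, so `G_kl ≠ 0` implies `c = ρ_r(k, l)`. If `G_ij ≠ 0`, `i ≠ j`: for `r = i`, `c = e^{m+1}`, so `G_kl ≠ 0` implies `k = i ≠ l`; for `r = j`, `c = e^{-(m+1)}`, so `l = j`.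

By hypothesis, Lemma A applies to `F` and to `p⁻¹ F p` for every `p = tv (i ≠ j) 1 = 1 + E_ij` with `j ≠ 0` (conjugate the equation by `p⁻¹ = 1 - E_ij`).

Case 1: `F` is diagonal, `F ≠ 0`, trace zero: `F = diag (f_i)`, `f_k ≠ f_l` for some `k, l`; one of them is not `0`, say `l ≠ 0` (otherwise exchange them). `p = 1 + E_kl`: `p⁻¹ F p = F + (f_k - f_l) E_kl`: it has a nonzero off-diagonal entry and a nonzero diagonal entry
(`F ≠ 0`), contradiction to Lemma A.

Case 2: `F = c E_ij`, `c ≠ 0`, `i ≠ j`, `i ≠ 0`. Choose `k ≠ i, j` (`m + 1 ≥ 3`) and `p = 1 + E_ki`: `p⁻¹ E_ij p = E_ij - E_kj` (`(1 - E_ki) E_ij (1 + E_ki)`, `E_ij E_ki = 0`, `E_ki E_ij = E_kj`, `E_ki E_ij E_ki = E_kj E_ki = 0` as `j ≠ k`): two nonzero off-diagonal entries,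
contradiction.

Case 3: `F = c E_0j`, `j ≠ 0`. Choose `l ≠ 0, j` and `p = 1 + E_jl`: `p⁻¹ E_0j p = E_0j + E_0l` (`E_jl E_0j = 0` as `l ≠ 0`). Contradiction.
-/

set_option autoImplicit false

open Matrix Topology Metric Filter

namespace Pool.Agent.Work.MP_20070e_gt.Y

open Pool.Agent.Work.MP_20070e_gt.X

variable {m : ℕ}

private theorem wt_ne (m : ℕ) (r k : Fin (m + 1)) :
    (dg m r).1 = Matrix.diagonal (fun i => if i = r then Real.exp m else Real.exp (-1)) := rfl

private theorem ent (m : ℕ) (r : Fin (m + 1)) (G : Mat (m + 1)) (c : ℝ)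
    (h : (dg m r).1 * G = c • (G * (dg m r).1)) (k l : Fin (m + 1)) (hG : G k l ≠ 0) :
    (if k = r then Real.exp m else Real.exp (-1)) =
      c * (if l = r then Real.exp m else Real.exp (-1)) := by
  have h1 := congrFun (congrFun h k) l
  rw [wt_ne m r k, Matrix.diagonal_mul, Matrix.smul_apply, Matrix.mul_diagonal, smul_eq_mul] at h1
  have h2 : G k l * (if k = r then Real.exp m else Real.exp (-1)) =
      G k l * (c * (if l = r then Real.exp m else Real.exp (-1))) := by
    rw [mul_comm (G k l), h1]; ring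
  exact mul_left_cancel₀ hG h2

private theorem lemA (m : ℕ) (G : Mat (m + 1))
    (h : ∀ r : Fin (m + 1), ∃ c : ℝ, (dg m r).1 * G = c • (G * (dg m r).1))
    {i j : Fin (m + 1)} (hij : i ≠ j) (hG : G i j ≠ 0) {k l : Fin (m + 1)} (hk : G k l ≠ 0) :
    k = i ∧ l = j := by
  have hm0 : (0 : ℝ) ≤ (m : ℝ) := Nat.cast_nonneg m
  have e0 : Real.exp (-1 : ℝ) ≠ Real.exp (m : ℝ) := by
    intro hh
    have := Real.exp_injective hh
    linarith
  constructor
  · obtain ⟨c, hc⟩ := h i
    have h1 := ent m i G c hc i j hG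
    have h2 := ent m i G c hc k l hk
    rw [if_pos rfl, if_neg (Ne.symm hij)] at h1
    have hc' : c = Real.exp ((m : ℝ) + 1) := by
      have h3 : c * Real.exp (-1 : ℝ) = Real.exp ((m : ℝ) + 1) * Real.exp (-1 : ℝ) := by
        rw [← h1, ← Real.exp_add]; congr 1; ring
      exact mul_right_cancel₀ (Real.exp_pos _).ne' h3
    by_contra hki
    rw [if_neg hki, hc'] at h2
    by_cases hl : l = i
    · rw [if_pos hl, ← Real.exp_add] at h2
      have := Real.exp_injective h2
      linarith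
    · rw [if_neg hl, ← Real.exp_add] at h2
      have := Real.exp_injective h2
      linarith
  · obtain ⟨c, hc⟩ := h j
    have h1 := ent m j G c hc i j hG
    have h2 := ent m j G c hc k l hk
    rw [if_pos rfl, if_neg hij] at h1
    have hc' : c = Real.exp (-((m : ℝ) + 1)) := by
      have h3 : c * Real.exp (m : ℝ) = Real.exp (-((m : ℝ) + 1)) * Real.exp (m : ℝ) := by
        rw [← h1, ← Real.exp_add]; congr 1; ring
      exact mul_right_cancel₀ (Real.exp_pos _).ne' h3
    by_contra hl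
    rw [if_neg hl, hc', ← Real.exp_add] at h2
    by_cases hk' : k = j
    · rw [if_pos hk'] at h2
      have := Real.exp_injective h2
      linarith
    · rw [if_neg hk'] at h2
      have := Real.exp_injective h2
      linarith

private theorem conj_ent {n : ℕ} {i j : Fin n} (hij : i ≠ j) (F : Mat n) (k l : Fin n) :
    (((tv hij 1 : SLn n)⁻¹).1 * F * (tv hij 1 : SLn n).1) k l =
      F k l + (if l = j then F k i else 0) - (if k = i then F j l else 0)
        - (if k = i then (if l = j then F j i else 0) else 0) := by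
  have h1 : ((tv hij 1 : SLn n)⁻¹) = (tv hij (-1) : SLn n) := by
    apply inv_eq_of_mul_eq_one_right
    apply Subtype.ext
    show Matrix.transvection i j (1 : ℝ) * Matrix.transvection i j (-1 : ℝ) = 1
    rw [Matrix.transvection_mul_transvection_same i j hij]
    simp
  rw [h1]
  show (Matrix.transvection i j (-1 : ℝ) * F * Matrix.transvection i j (1 : ℝ)) k l = _
  have h2 : ∀ (G : Mat n) (a b : Fin n), (G * Matrix.transvection i j (1 : ℝ)) a b =
      G a b + (if b = j then G a i else 0) := by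
    intro G a b
    by_cases hb : b = j
    · subst hb
      rw [Matrix.mul_transvection_apply_same, if_pos rfl, one_mul]
    · rw [Matrix.mul_transvection_apply_of_ne _ _ _ _ hb, if_neg hb, add_zero]
  have h3 : ∀ (a b : Fin n), (Matrix.transvection i j (-1 : ℝ) * F) a b =
      F a b - (if a = i then F j b else 0) := by
    intro a b
    by_cases ha : a = i
    · subst ha
      rw [Matrix.transvection_mul_apply_same, if_pos rfl]
      ring
    · rw [Matrix.transvection_mul_apply_of_ne _ _ _ _ ha, if_neg ha, sub_zero]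
  rw [h2, h3, h3]
  by_cases hk : k = i <;> by_cases hl : l = j <;> simp [hk, hl] <;> ring

theorem no_eigenvector (hm : 2 ≤ m) (F : Mat (m + 1)) (htr : F.trace = 0)
    (h1 : ∀ r : Fin (m + 1), ∃ c : ℝ, (dg m r).1 * F * ((dg m r)⁻¹).1 = c • F)
    (h2 : ∀ (i j : Fin (m + 1)) (hij : i ≠ j), j ≠ 0 → ∀ r : Fin (m + 1), ∃ c : ℝ,
      (tv hij 1 * dg m r * (tv hij 1)⁻¹).1 * F * ((tv hij 1 * dg m r * (tv hij 1)⁻¹)⁻¹).1 =
        c • F) : F = 0 := by
  have inv1 : ∀ A : SLn (m + 1), (A⁻¹).1 * A.1 = 1 := by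
    intro A
    exact congrArg (fun B : SLn (m + 1) => B.1) (inv_mul_cancel A)
  have inv2 : ∀ A : SLn (m + 1), A.1 * (A⁻¹).1 = 1 := by
    intro A
    exact congrArg (fun B : SLn (m + 1) => B.1) (mul_inv_cancel A)
  -- the equations without inverses
  have H1 : ∀ r : Fin (m + 1), ∃ c : ℝ, (dg m r).1 * F = c • (F * (dg m r).1) := by
    intro r
    obtain ⟨c, hc⟩ := h1 r
    refine ⟨c, ?_⟩
    rw [← Matrix.smul_mul, ← hc, Matrix.mul_assoc _ _ (dg m r).1, inv1, Matrix.mul_one]
  have H2 : ∀ (i j : Fin (m + 1)) (hij : i ≠ j), j ≠ 0 → ∀ r : Fin (m + 1), ∃ c : ℝ,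
      (dg m r).1 * (((tv hij 1 : SLn (m + 1))⁻¹).1 * F * (tv hij 1 : SLn (m + 1)).1) =
        c • ((((tv hij 1 : SLn (m + 1))⁻¹).1 * F * (tv hij 1 : SLn (m + 1)).1) * (dg m r).1) := by
    intro i j hij hj r
    obtain ⟨c, hc⟩ := h2 i j hij hj r
    refine ⟨c, ?_⟩
    generalize hP : (tv hij 1 : SLn (m + 1)) = P at hc ⊢
    generalize hA : dg m r = A at hc ⊢
    have e1 : (P * A * P⁻¹).1 * F = c • (F * (P * A * P⁻¹).1) := by
      rw [← Matrix.smul_mul, ← hc, Matrix.mul_assoc _ _ (P * A * P⁻¹).1, inv1, Matrix.mul_one]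
    have e2 : (P * A * P⁻¹).1 = P.1 * A.1 * (P⁻¹).1 := rfl
    rw [e2] at e1
    have e3 : (P⁻¹).1 * (P.1 * A.1 * (P⁻¹).1 * F) * P.1 =
        (P⁻¹).1 * (c • (F * (P.1 * A.1 * (P⁻¹).1))) * P.1 := by rw [e1]
    have e4 : (P⁻¹).1 * (P.1 * A.1 * (P⁻¹).1 * F) * P.1 = A.1 * ((P⁻¹).1 * F * P.1) := by
      have : (P⁻¹).1 * (P.1 * A.1 * (P⁻¹).1 * F) * P.1 =
          ((P⁻¹).1 * P.1) * A.1 * ((P⁻¹).1 * F * P.1) := by
        simp only [Matrix.mul_assoc]
      rw [this, inv1, Matrix.one_mul]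
    have e5 : (P⁻¹).1 * (c • (F * (P.1 * A.1 * (P⁻¹).1))) * P.1 =
        c • (((P⁻¹).1 * F * P.1) * A.1) := by
      rw [Matrix.mul_smul, Matrix.smul_mul]
      congr 1
      have : (P⁻¹).1 * (F * (P.1 * A.1 * (P⁻¹).1)) * P.1 =
          (P⁻¹).1 * F * P.1 * A.1 * ((P⁻¹).1 * P.1) := by
        simp only [Matrix.mul_assoc]
      rw [this, inv1, Matrix.mul_one]
    rw [← e4, e3, e5]
  by_contra hF
  have hex : ∃ a b, F a b ≠ 0 := by
    by_contra hn
    push Not at hn
    exact hF (Matrix.ext fun a b => by simpa using hn a b)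
  by_cases hoff : ∃ a b, a ≠ b ∧ F a b ≠ 0
  · obtain ⟨a, b, hab, hFab⟩ := hoff
    have hz : ∀ k l, ¬ (k = a ∧ l = b) → F k l = 0 := by
      intro k l hkl
      by_contra hne
      exact hkl (lemA m F H1 hab hFab hne)
    -- a third index
    have third : ∀ x y : Fin (m + 1), ∃ k : Fin (m + 1), k ≠ x ∧ k ≠ y := by
      intro x y
      have hc : ({x, y} : Finset (Fin (m + 1))).card < (Finset.univ : Finset (Fin (m + 1))).card := by
        rw [Finset.card_univ, Fintype.card_fin]
        exact lt_of_le_of_lt (Finset.card_le_two) (by omega)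
      obtain ⟨k, -, hk⟩ := Finset.exists_mem_notMem_of_card_lt_card hc
      simp only [Finset.mem_insert, Finset.mem_singleton, not_or] at hk
      exact ⟨k, hk.1, hk.2⟩
    by_cases ha : a = 0
    · obtain ⟨l, hl0, hlb⟩ := third a b
      have hbl : b ≠ l := Ne.symm hlb
      have hl0' : l ≠ 0 := by rw [← ha]; exact hl0
      have hG1 : (((tv hbl 1 : SLn (m + 1))⁻¹).1 * F * (tv hbl 1 : SLn (m + 1)).1) a b ≠ 0 := by
        rw [conj_ent, if_neg hbl, if_neg hab, if_neg hab]
        simpa using hFab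
      have hG2 : (((tv hbl 1 : SLn (m + 1))⁻¹).1 * F * (tv hbl 1 : SLn (m + 1)).1) a l ≠ 0 := by
        rw [conj_ent, if_pos rfl, if_neg hab, if_neg hab, hz a l (fun h => hlb h.2)]
        simpa using hFab
      exact hlb (lemA m _ (H2 b l hbl hl0') hab hG1 hG2).2
    · obtain ⟨k, hka, hkb⟩ := third a b
      have hG1 : (((tv hka 1 : SLn (m + 1))⁻¹).1 * F * (tv hka 1 : SLn (m + 1)).1) a b ≠ 0 := by
        rw [conj_ent, if_neg (Ne.symm hab), if_neg (Ne.symm hka), if_neg (Ne.symm hka)]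
        simpa using hFab
      have hG2 : (((tv hka 1 : SLn (m + 1))⁻¹).1 * F * (tv hka 1 : SLn (m + 1)).1) k b ≠ 0 := by
        rw [conj_ent, if_neg (Ne.symm hab), if_pos rfl, if_pos rfl, if_neg (Ne.symm hab),
          hz k b (fun h => hka h.1)]
        simpa using hFab
      exact hka (lemA m _ (H2 k a hka ha) hab hG1 hG2).1
  · push Not at hoff
    obtain ⟨a, b, hFab⟩ := hex
    have hab : a = b := by
      by_contra hne
      exact hFab (hoff a b hne)
    subst hab
    have hk : ∃ k, F k k ≠ F a a := by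
      by_contra hn
      push Not at hn
      have : F.trace = ((m : ℝ) + 1) * F a a := by
        rw [Matrix.trace]
        simp only [Matrix.diag_apply]
        rw [Finset.sum_congr rfl (fun k _ => hn k), Finset.sum_const, Finset.card_univ,
          Fintype.card_fin, nsmul_eq_mul]
        push_cast
        ring
      rw [htr] at this
      have h3 : ((m : ℝ) + 1) ≠ 0 := by positivity
      exact (mul_ne_zero h3 hFab) this.symm
    obtain ⟨k, hk⟩ := hk
    have hka : k ≠ a := fun h => hk (by rw [h])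
    by_cases ha : a = 0
    · have hk0 : k ≠ 0 := by rw [← ha]; exact hka
      have hak : a ≠ k := Ne.symm hka
      have hG1 : (((tv hak 1 : SLn (m + 1))⁻¹).1 * F * (tv hak 1 : SLn (m + 1)).1) a k ≠ 0 := by
        rw [conj_ent, if_pos rfl, if_pos rfl, if_pos rfl, if_pos rfl, hoff a k hak, hoff k a hka]
        intro h
        apply hk
        linarith
      have hG2 : (((tv hak 1 : SLn (m + 1))⁻¹).1 * F * (tv hak 1 : SLn (m + 1)).1) a a ≠ 0 := by
        rw [conj_ent, if_neg hak, if_pos rfl, if_pos rfl, if_neg hak, hoff k a hka]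
        simpa using hFab
      exact hak (lemA m _ (H2 a k hak hk0) hak hG1 hG2).2
    · have hG1 : (((tv hka 1 : SLn (m + 1))⁻¹).1 * F * (tv hka 1 : SLn (m + 1)).1) k a ≠ 0 := by
        rw [conj_ent, if_pos rfl, if_pos rfl, if_pos rfl, if_pos rfl, hoff a k (Ne.symm hka),
          hoff k a hka]
        intro h
        apply hk
        linarith
      have hG2 : (((tv hka 1 : SLn (m + 1))⁻¹).1 * F * (tv hka 1 : SLn (m + 1)).1) a a ≠ 0 := by
        rw [conj_ent, if_pos rfl, if_neg (Ne.symm hka), if_neg (Ne.symm hka),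
          hoff a k (Ne.symm hka)]
        simpa using hFab
      exact hka (lemA m _ (H2 k a hka ha) hka hG1 hG2).1.symm

end Pool.Agent.Work.MP_20070e_gt.Y
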