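import Mathlib
import Pool.Agent.Work.MP_20070e_gt.Y.YRec
import Pool.Agent.Work.MP_20070e_gt.X.El
import Pool.Agent.Work.MP_20070e_gt.X.SAsym
import Pool.Agent.Work.MP_20070e_gt.X.SPath

/-!
# Y/YFix (M-L): a point of `X` fixed by the stabiliser of `o` (any lattice)

`rec_dense` with `S = {aa m 1}`, `O = univ`: `g`, `k_j → ∞`, `γ_j ∈ Γ`, `κ_j := (aa m 1)^{k_j} g γ_j → g`; `(aa m 1)^k = aa m k` (`aa_pow`). Let `ω = τ g (π (sphAct g⁻¹ (oo m)))`. `X` is compact (`π` continuous surjective), Hausdorff, second countable.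

(A) If `w_j → w` in `S^m`, `(lin g w)_0 > 0` and `l : ℕ → ℕ` tends to `∞`, then `τ (aa m k_{l j}) (τ g (π w_j)) → ω`. Proof (write `j` for `l j` in `k, γ, κ`): `aa m k_j * g = κ_j γ_j⁻¹`, so the left side is `τ κ_j (τ γ_j⁻¹ (π w_j)) = τ κ_j (π (sphAct γ_j⁻¹ w_j))` (`gam`), and
`sphAct γ_j⁻¹ w_j = sphAct κ_j⁻¹ (sphAct (aa m k_j) (sphAct g w_j)) → sphAct g⁻¹ (oo m)` by `aa_sph` (`sphAct g w` has a positive coordinate `0`) and `sphAct_continuous`; use `τc`, `πc`.

(B) If `z_j → z` in `X`, `z = τ g (π w)`, `(lin g w)_0 > 0`, `l → ∞`, then `τ (aa m k_{l j}) z_j → ω`. Proof (`tendsto_of_subseq_tendsto`): choose `x_j` with `π x_j = τ g⁻¹ z_j` (`πs`). Along a subsequence `x_j → x*` (compact sphere), `π x* = lim τ g⁻¹ z_j = π w`, so `x* = w` or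
(`proj` and `x* = -w`); in the second case replace `x_j` by `-x_j` (`π (-x_j) = π x_j` by `fib`). Now (A).

(C) Let `D = {z | ∃ w, z = τ g (π w) ∧ (lin g w)_0 > 0}`. `ω ∈ D` (`w = sphAct g⁻¹ (oo m)`, `lin g w = e₀ / ‖lin g⁻¹ e₀‖`). `D` is a neighbourhood of `ω`, indeed if `z_j → z ∈ D` then `z_j ∈ D` for large `j` (by contradiction and the lifting argument of (B)); or: `π` is a closed map (compact to
Hausdorff), so a quotient map, and the preimage of `D' = (τ g⁻¹) '' D` under `π` is `H` or `H ∪ -H`, `H = {w | (lin g w)_0 > 0}`, an open set.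
By continuity of `τ` there is `δ ∈ (0, 1)` such that `τ h ω ∈ D` for all `h` in the box `N = {h | ∀ i j, |h i j - δ_ij| ≤ δ}` (`isInducing_ent` in `../C2.lean`: `nhds_one_eq`). `N` is compact (closed subset of `compact_box 2`).
Claim: if `q ∈ N` and `sphAct q (oo m) = oo m` then `τ q ω = ω`. The matrices `q_k := (aa m k)⁻¹ * q * aa m k` are in `N`: the entry `(i, j)` of `q_k` is that of `q` times `a_j / a_i`, where `a = (e^{mk}, e^{-k}, .., e^{-k})`: times `1` for `i = j = 0` and for `i, j ≠ 0`, times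
`e^{-(m+1)k} ≤ 1` for `(0, j)`, and the entries `(i, 0)`, `i ≠ 0`, of `q` vanish (`sphAct_eq_oo`). For a subsequence `l`, `q_{k_{l j}} → q* ∈ N`, `z_j := τ q_{k_{l j}} ω → τ q* ω ∈ D`. By (B): `τ (aa m k_{l j}) z_j → ω`. But
`τ (aa m k_{l j}) z_j = τ q (τ (aa m k_{l j}) ω) → τ q ω` (by (B) for the constant sequence `ω ∈ D`). So `τ q ω = ω` (`t2`).

(D) All `q` with `sphAct q (oo m) = oo m`: path `p` of `stab_path` (`X/SPath`); `{t : ℝ | τ (p t) ω = ω}` contains `0`, is closed, and open (`p t = (p t * (p t₀)⁻¹) * p t₀`, where `p t * (p t₀)⁻¹ ∈ N` for `t` near `t₀` and it fixes `oo m`); so it is `univ`, take `t = 1`.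
-/

set_option autoImplicit false

open Matrix Topology Metric Filter

namespace Pool.Agent.Work.MP_20070e_gt.Y

open Pool.Agent.Work.MP_20070e_gt.X

variable {m : ℕ}

/-- `q` with the entries `(0, j)`, `j ≠ 0`, replaced by `0`. -/
private noncomputable def yQL (q : Matrix (Fin (m + 1)) (Fin (m + 1)) ℝ) :
    Matrix (Fin (m + 1)) (Fin (m + 1)) ℝ := fun i j => if i = 0 ∧ j ≠ 0 then 0 else q i j

private theorem yQL_one : yQL (1 : Matrix (Fin (m + 1)) (Fin (m + 1)) ℝ) = 1 := by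
  ext i j
  unfold yQL
  split_ifs with h
  · rw [h.1, Matrix.one_apply_ne (Ne.symm h.2)]
  · rfl

private theorem yQL_cont : Continuous (yQL (m := m)) := by
  refine continuous_matrix fun i j => ?_
  by_cases h : i = 0 ∧ j ≠ 0
  · have e : (fun a : Matrix (Fin (m + 1)) (Fin (m + 1)) ℝ => yQL a i j) = fun _ => (0 : ℝ) := by
      funext a
      exact if_pos h
    rw [e]
    exact continuous_const
  · have e : (fun a : Matrix (Fin (m + 1)) (Fin (m + 1)) ℝ => yQL a i j) = fun a => a i j := by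
      funext a
      exact if_neg h
    rw [e]
    exact continuous_id.matrix_elem i j

private theorem ycol_zero {q : SLn (m + 1)} (hq : sphAct q (oo m) = oo m) (i : Fin (m + 1))
    (hi : i ≠ 0) : q.1 i 0 = 0 := by
  obtain ⟨l, _, hl⟩ := sphAct_eq_oo hq
  have h1 := congrArg (fun v : Eu (m + 1) => v i) hl
  have h2 : (lin q (e0 m)) i = q.1 i 0 := by
    change (q.1 *ᵥ (e0 m).ofLp) i = q.1 i 0
    rw [Matrix.mulVec, dotProduct, Finset.sum_eq_single 0]
    · have : (e0 m).ofLp 0 = 1 := by unfold e0; simp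
      rw [this, mul_one]
    · intro b _ hb
      have : (e0 m).ofLp b = 0 := by
        unfold e0
        simp [hb]
      rw [this, mul_zero]
    · intro h; exact absurd (Finset.mem_univ _) h
  have h3 : (l • e0 m) i = 0 := by
    unfold e0
    simp [hi]
  simp only at h1
  rw [h2, h3] at h1
  exact h1

private theorem yconj_entry (q : SLn (m + 1)) (s : ℝ) (i j : Fin (m + 1)) :
    ((aa m s)⁻¹ * q * aa m s).1 i j =
      (if i = 0 then Real.exp (m * (-s)) else Real.exp (-(-s))) * q.1 i j *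
        (if j = 0 then Real.exp (m * s) else Real.exp (-s)) := by
  rw [← aa_neg]
  change (((Matrix.diagonal (fun i => if i = 0 then Real.exp (m * (-s)) else Real.exp (-(-s))) :
    Matrix (Fin (m + 1)) (Fin (m + 1)) ℝ) * q.1) *
    (Matrix.diagonal (fun i => if i = 0 then Real.exp (m * s) else Real.exp (-s)) :
      Matrix (Fin (m + 1)) (Fin (m + 1)) ℝ) : Matrix (Fin (m + 1)) (Fin (m + 1)) ℝ) i j = _
  rw [Matrix.mul_diagonal, Matrix.diagonal_mul]

private theorem yconj_tendsto {q : SLn (m + 1)} (hq : sphAct q (oo m) = oo m) (kj : ℕ → ℕ)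
    (hk : Tendsto kj atTop atTop) :
    Tendsto (fun k => ((aa m (kj k))⁻¹ * q * aa m (kj k)).1) atTop (𝓝 (yQL q.1)) := by
  refine tendsto_pi_nhds.2 fun i => tendsto_pi_nhds.2 fun j => ?_
  simp only [yconj_entry]
  unfold yQL
  by_cases hi : i = 0
  · subst hi
    by_cases hj : j = 0
    · subst hj
      simp only [if_true, ne_eq, not_true_eq_false, and_false, if_false]
      refine tendsto_const_nhds.congr fun k => ?_
      rw [mul_right_comm, ← Real.exp_add]
      have : (m : ℝ) * -((kj k : ℕ) : ℝ) + m * ((kj k : ℕ) : ℝ) = 0 := by ring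
      rw [this, Real.exp_zero, one_mul]
    · simp only [if_true, ne_eq, hj, not_false_eq_true, and_self, if_false]
      have h1 : Tendsto (fun k : ℕ => Real.exp (-(((m : ℝ) + 1) * ((kj k : ℕ) : ℝ))) * q.1 0 j) atTop
          (𝓝 (0 * q.1 0 j)) := by
        refine Tendsto.mul_const _ ?_
        refine Real.tendsto_exp_neg_atTop_nhds_zero.comp ?_
        refine Tendsto.const_mul_atTop (by positivity) ?_
        exact tendsto_natCast_atTop_atTop.comp hk
      rw [zero_mul] at h1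
      refine h1.congr fun k => ?_
      rw [mul_right_comm, ← Real.exp_add]
      congr 2
      ring
  · by_cases hj : j = 0
    · subst hj
      rw [ycol_zero hq i hi]
      simp [hi]
    · simp only [hi, hj, if_false, false_and]
      refine tendsto_const_nhds.congr fun k => ?_
      rw [mul_right_comm, ← Real.exp_add]
      have : -(-((kj k : ℕ) : ℝ)) + -((kj k : ℕ) : ℝ) = 0 := by ring
      rw [this, Real.exp_zero, one_mul]

private theorem yQL_det {q : SLn (m + 1)} (hq : sphAct q (oo m) = oo m) : (yQL q.1).det = 1 := by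
  have h1 := yconj_tendsto hq id tendsto_id
  have h2 : Tendsto (fun k : ℕ => (((aa m ((id k : ℕ) : ℝ))⁻¹ * q * aa m ((id k : ℕ) : ℝ)).1).det) atTop
      (𝓝 (yQL q.1).det) := ((continuous_id.matrix_det).tendsto _).comp h1
  have h3 : (fun k : ℕ => (((aa m ((id k : ℕ) : ℝ))⁻¹ * q * aa m ((id k : ℕ) : ℝ)).1).det) =
      fun _ => (1 : ℝ) := by
    funext k
    exact ((aa m ((id k : ℕ) : ℝ))⁻¹ * q * aa m ((id k : ℕ) : ℝ)).2
  rw [h3] at h2
  exact tendsto_nhds_unique h2 tendsto_const_nhds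

/-- the stabiliser of the base point -/
private abbrev yStab (m : ℕ) := {q : SLn (m + 1) // sphAct q (oo m) = oo m}

private noncomputable def yqL (q : yStab m) : SLn (m + 1) := ⟨yQL q.1.1, yQL_det q.2⟩

private theorem yqL_cont : Continuous (yqL (m := m)) := by
  refine Continuous.subtype_mk ?_ _
  exact yQL_cont.comp (continuous_subtype_val.comp continuous_subtype_val)

private theorem yimage_open {proj : Prop} {Γ : Subgroup (SLn (m + 1))} {X : Type}
    [TopologicalSpace X] {π : Sph (m + 1) → X}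
    {τ : SLn (m + 1) → X → X} (h : SphSys proj Γ X π τ) {H : Set (Sph (m + 1))} (hH : IsOpen H) :
    IsOpen (π '' H) := by
  haveI := h.t2
  have h1 : IsQuotientMap π := (h.πc.isClosedMap).isQuotientMap h.πc h.πs
  rw [← h1.isOpen_preimage]
  have h2 : π ⁻¹' (π '' H) = H ∪ {w : Sph (m + 1) | proj ∧ -w ∈ H} := by
    ext x
    constructor
    · rintro ⟨w, hw, hwx⟩
      rcases (h.fib w x).1 hwx with h3 | ⟨h3, h4⟩
      · left; rw [← h3]; exact hw
      · right
        refine ⟨h3, ?_⟩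
        rw [← h4]; exact hw
    · rintro (h3 | ⟨h3, h4⟩)
      · exact ⟨x, h3, rfl⟩
      · exact ⟨-x, h4, (h.fib _ _).2 (Or.inr ⟨h3, rfl⟩)⟩
  rw [h2]
  refine hH.union ?_
  by_cases hp : proj
  · simp only [hp, true_and]
    exact hH.preimage continuous_neg
  · simp [hp]

private theorem ysph_cont {n : ℕ} (g : SLn n) : Continuous (fun w : Sph n => sphAct g w) := by
  have he1 : Continuous (fun w : Sph n => (g, w)) := continuous_const.prodMk continuous_id
  have he2 := (sphAct_continuous (n := n)).comp he1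
  exact he2

private theorem ysph_tendsto1 {n : ℕ} {X : Type} [TopologicalSpace X] {g : ℕ → SLn n} {g' : SLn n}
    {x : ℕ → X} {x' : X} (hg : Tendsto g atTop (𝓝 g')) (hx : Tendsto x atTop (𝓝 x')) :
    Tendsto (fun j => (g j, x j)) atTop (𝓝 (g', x')) := hg.prodMk_nhds hx

private theorem ysph_tendsto {n : ℕ} {g : ℕ → SLn n} {g' : SLn n} {x : ℕ → Sph n} {x' : Sph n}
    (hg : Tendsto g atTop (𝓝 g')) (hx : Tendsto x atTop (𝓝 x')) :
    Tendsto (fun j => sphAct (g j) (x j)) atTop (𝓝 (sphAct g' x')) := by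
  have h2 := ysph_tendsto1 hg hx
  have h1 := (sphAct_continuous (n := n)).tendsto (g', x')
  have h3 := h1.comp h2
  simpa only [Function.comp_def] using h3

private theorem ytau_tendsto {n : ℕ} {X : Type} [TopologicalSpace X] {τ : SLn n → X → X}
    (hτ : Continuous (fun p : SLn n × X => τ p.1 p.2)) {g : ℕ → SLn n} {g' : SLn n}
    {x : ℕ → X} {x' : X} (hg : Tendsto g atTop (𝓝 g')) (hx : Tendsto x atTop (𝓝 x')) :
    Tendsto (fun j => τ (g j) (x j)) atTop (𝓝 (τ g' x')) := by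
  have h2 := ysph_tendsto1 hg hx
  have h1 := hτ.tendsto (g', x')
  have h3 := h1.comp h2
  simpa only [Function.comp_def] using h3

private theorem ykey_alg {n : ℕ} {Γ : Subgroup (SLn n)} {X : Type} {π : Sph n → X}
    {τ : SLn n → X → X} (mul : ∀ g h z, τ g (τ h z) = τ (g * h) z)
    (gam : ∀ γ ∈ Γ, ∀ x, τ γ (π x) = π (sphAct γ x)) (a γ : SLn n) (hγ : γ ∈ Γ) (x : Sph n) :
    τ (a * γ) (π (sphAct (a * γ)⁻¹ (sphAct a x))) = τ a (π x) := by
  have h1 : sphAct (a * γ)⁻¹ (sphAct a x) = sphAct γ⁻¹ x := by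
    rw [← sphAct_mul, _root_.mul_inv_rev, mul_assoc, inv_mul_cancel, mul_one]
  rw [h1, ← gam _ (Γ.inv_mem hγ), mul, mul_assoc, mul_inv_cancel, mul_one]

private theorem yconv {proj : Prop} {Γ : Subgroup (SLn (m + 1))}
    {X : Type} [TopologicalSpace X] {π : Sph (m + 1) → X} {τ : SLn (m + 1) → X → X}
    (h : SphSys proj Γ X π τ) (g : SLn (m + 1)) (kj : ℕ → ℕ) (hk : Tendsto kj atTop atTop)
    (γ : ℕ → SLn (m + 1)) (hγ : ∀ j, γ j ∈ Γ)
    (hκ : Tendsto (fun j => aa m (kj j) * g * γ j) atTop (𝓝 g)) (z : ℕ → X)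
    (w : Sph (m + 1)) (hw : 0 < ((sphAct g w : Sph (m + 1)) : Eu (m + 1)) 0)
    (hz : Tendsto z atTop (𝓝 (τ g (π w)))) :
    Tendsto (fun j => τ (aa m (kj j)) (z j)) atTop
      (𝓝 (τ g (π (sphAct g⁻¹ (oo m))))) := by
  have hT2 := h.t2
  have hτ : ∀ g : SLn (m + 1), Continuous (τ g) := fun g =>
    h.τc.comp (continuous_const.prodMk continuous_id)
  have hinv : ∀ x, τ g (τ g⁻¹ x) = x := fun x => by rw [h.mul, mul_inv_cancel, h.one]
  have hinv' : ∀ x, τ g⁻¹ (τ g x) = x := fun x => by rw [h.mul, inv_mul_cancel, h.one]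
  refine tendsto_of_subseq_tendsto fun ns hns => ?_
  choose x0 hx0 using fun j => h.πs (τ g⁻¹ (z (ns j)))
  obtain ⟨xs, φ, hφ, hxs⟩ := CompactSpace.tendsto_subseq x0
  have hzl : Tendsto (fun j => τ g⁻¹ (z (ns (φ j)))) atTop (𝓝 (π w)) := by
    have h2 := ((hτ g⁻¹).tendsto _).comp (hz.comp (hns.comp hφ.tendsto_atTop))
    rw [hinv'] at h2
    exact h2
  have h1 : Tendsto (fun j => τ g⁻¹ (z (ns (φ j)))) atTop (𝓝 (π xs)) := by
    have h2 := (h.πc.tendsto xs).comp hxs
    refine h2.congr fun j => ?_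
    exact hx0 (φ j)
  have h3 : π xs = π w := tendsto_nhds_unique h1 hzl
  obtain ⟨x, hx, hxw⟩ : ∃ x : ℕ → Sph (m + 1), (∀ j, π (x j) = τ g⁻¹ (z (ns (φ j)))) ∧
      Tendsto x atTop (𝓝 w) := by
    rcases (h.fib xs w).1 h3 with h4 | ⟨h4, h5⟩
    · exact ⟨fun j => x0 (φ j), fun j => hx0 _, by rw [← h4]; exact hxs⟩
    · refine ⟨fun j => -x0 (φ j), fun j => ?_, ?_⟩
      · rw [← hx0 (φ j)]
        exact (h.fib _ _).2 (Or.inr ⟨h4, rfl⟩)
      · have h6 : w = -xs := by rw [h5, neg_neg]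
        rw [h6]
        exact hxs.neg
  refine ⟨φ, ?_⟩
  have hl : Tendsto (fun j => ns (φ j)) atTop atTop := hns.comp hφ.tendsto_atTop
  have hgx : Tendsto (fun j => sphAct g (x j)) atTop (𝓝 (sphAct g w)) :=
    ysph_tendsto tendsto_const_nhds hxw
  have h7 : Tendsto (fun j => sphAct (aa m (kj (ns (φ j)))) (sphAct g (x j))) atTop
      (𝓝 (oo m)) :=
    aa_sph (fun j => kj (ns (φ j))) (hk.comp hl) (fun j => sphAct g (x j)) _ hgx hw
  have hκ' : Tendsto (fun j => aa m (kj (ns (φ j))) * g * γ (ns (φ j))) atTop (𝓝 g) :=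
    hκ.comp hl
  have h9 := ysph_tendsto hκ'.inv h7
  have h10 := ytau_tendsto h.τc hκ' ((h.πc.tendsto _).comp h9)
  refine h10.congr fun j => ?_
  have h11 := ykey_alg h.mul h.gam (aa m (kj (ns (φ j))) * g) (γ (ns (φ j))) (hγ _) (x j)
  rw [sphAct_mul (aa m (kj (ns (φ j)))) g] at h11
  have h12 : τ (aa m (kj (ns (φ j))) * g) (π (x j)) =
      τ (aa m (kj (ns (φ j)))) (z (ns (φ j))) := by
    rw [← h.mul, hx, hinv]
  rw [h12] at h11
  exact h11

theorem exists_fix_lat {proj : Prop} (hm : 2 ≤ m) {Γ : Subgroup (SLn (m + 1))}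
    (hΓ : IsLattice Γ) {X : Type} [TopologicalSpace X] {π : Sph (m + 1) → X}
    {τ : SLn (m + 1) → X → X} (h : SphSys proj Γ X π τ) :
    ∃ ω : X, ∀ q : SLn (m + 1), sphAct q (oo m) = oo m → τ q ω = ω := by
  haveI := h.t2
  obtain ⟨g, _, hrec⟩ := rec_dense hm hΓ {aa m 1} (Set.countable_singleton _) Set.univ
    isOpen_univ Set.univ_nonempty
  obtain ⟨kj, γ, hk, hγ, hκ0⟩ := hrec _ (Set.mem_singleton _)
  have hκ : Tendsto (fun j => aa m (kj j) * g * γ j) atTop (𝓝 g) := by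
    refine hκ0.congr fun j => ?_
    rw [aa_pow, mul_one]
  have hτ : ∀ g : SLn (m + 1), Continuous (τ g) := fun g =>
    h.τc.comp (continuous_const.prodMk continuous_id)
  have hinv : ∀ x, τ g (τ g⁻¹ x) = x := fun x => by rw [h.mul, mul_inv_cancel, h.one]
  obtain ⟨ω, hωdef⟩ : ∃ ω : X, ω = τ g (π (sphAct g⁻¹ (oo m))) := ⟨_, rfl⟩
  set H : Set (Sph (m + 1)) := {w | 0 < ((sphAct g w : Sph (m + 1)) : Eu (m + 1)) 0} with hH
  have hHo : IsOpen H := by
    have hc : Continuous (fun w : Sph (m + 1) => (w : Eu (m + 1)) 0) :=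
      (EuclideanSpace.proj (0 : Fin (m + 1)) : Eu (m + 1) →L[ℝ] ℝ).continuous.comp
        continuous_subtype_val
    have hs : Continuous (fun w : Sph (m + 1) => sphAct g w) := ysph_cont g
    exact isOpen_lt continuous_const (hc.comp hs)
  set D : Set X := τ g⁻¹ ⁻¹' (π '' H) with hD
  have hDo : IsOpen D := (yimage_open h hHo).preimage (hτ g⁻¹)
  have hconv : ∀ (z : ℕ → X) (z' : X), z' ∈ D → Tendsto z atTop (𝓝 z') →
      Tendsto (fun j => τ (aa m (kj j)) (z j)) atTop (𝓝 ω) := by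
    rintro z z' ⟨w, hw, hwz⟩ hz
    have h1 : z' = τ g (π w) := by rw [hwz, hinv]
    rw [h1] at hz
    rw [hωdef]
    exact yconv h g kj hk γ hγ hκ z w hw hz
  have hωD : ω ∈ D := by
    refine ⟨sphAct g⁻¹ (oo m), ?_, ?_⟩
    · change 0 < ((sphAct g (sphAct g⁻¹ (oo m)) : Sph (m + 1)) : Eu (m + 1)) 0
      rw [← sphAct_mul, mul_inv_cancel, sphAct_one]
      change 0 < (e0 m) 0
      unfold e0
      simp
    · rw [hωdef, h.mul, inv_mul_cancel, h.one]
  refine ⟨ω, fun q hq => ?_⟩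
  -- the open set of good elements
  have hf : Continuous (fun q : yStab m => τ (yqL q) ω) :=
    h.τc.comp (yqL_cont.prodMk continuous_const)
  have hO : IsOpen ((fun q : yStab m => τ (yqL q) ω) ⁻¹' D) := hDo.preimage hf
  have hgood : ∀ q : yStab m, q ∈ ((fun q : yStab m => τ (yqL q) ω) ⁻¹' D) → τ q.1 ω = ω := by
    intro q hqD
    have h0 : Tendsto (fun j => τ (aa m (kj j)) ω) atTop (𝓝 ω) :=
      hconv (fun _ => ω) ω hωD tendsto_const_nhds
    have h1 : Tendsto (fun j => τ q.1 (τ (aa m (kj j)) ω)) atTop (𝓝 (τ q.1 ω)) :=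
      ((hτ q.1).tendsto ω).comp h0
    have h2 : Tendsto (fun j => (aa m (kj j))⁻¹ * q.1 * aa m (kj j)) atTop (𝓝 (yqL q)) := by
      exact tendsto_subtype_rng.2 (yconj_tendsto q.2 kj hk)
    have h3 : Tendsto (fun j => τ ((aa m (kj j))⁻¹ * q.1 * aa m (kj j)) ω) atTop
        (𝓝 (τ (yqL q) ω)) := by
      have h4 : Continuous (fun g : SLn (m + 1) => τ g ω) :=
        h.τc.comp (continuous_id.prodMk continuous_const)
      exact (h4.tendsto _).comp h2
    have h5 := hconv _ _ hqD h3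
    have h6 : (fun j => τ (aa m (kj j)) (τ ((aa m (kj j))⁻¹ * q.1 * aa m (kj j)) ω)) =
        fun j => τ q.1 (τ (aa m (kj j)) ω) := by
      funext j
      rw [h.mul, h.mul]
      congr 1
      group
    rw [h6] at h5
    exact tendsto_nhds_unique h1 h5
  have hone : ∀ q : yStab m, q.1 = 1 → q ∈ ((fun q : yStab m => τ (yqL q) ω) ⁻¹' D) := by
    intro q hq1
    have : yqL q = 1 := by
      apply Subtype.ext
      change yQL q.1.1 = 1
      rw [hq1]
      exact yQL_one
    change τ (yqL q) ω ∈ D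
    rw [this, h.one]
    exact hωD
  obtain ⟨p, hp, hp0, hp1, hps⟩ := stab_path hm q hq
  have hpc : Continuous (fun t => τ (p t) ω) := h.τc.comp (hp.prodMk continuous_const)
  have hclosed : IsClosed {t : ℝ | τ (p t) ω = ω} := isClosed_eq hpc continuous_const
  have hopen : IsOpen {t : ℝ | τ (p t) ω = ω} := by
    rw [isOpen_iff_mem_nhds]
    intro t₀ ht₀
    have hst : ∀ t, sphAct (p t * (p t₀)⁻¹) (oo m) = oo m := by
      intro t
      rw [sphAct_mul]
      have h1 : sphAct (p t₀)⁻¹ (oo m) = oo m := by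
        conv_lhs => rw [← hps t₀]
        rw [← sphAct_mul, inv_mul_cancel, sphAct_one]
      rw [h1, hps]
    have hcont : Continuous (fun t => (⟨p t * (p t₀)⁻¹, hst t⟩ : yStab m)) :=
      Continuous.subtype_mk (hp.mul continuous_const) _
    have h2 := hO.preimage hcont
    have h3 : t₀ ∈ (fun t => (⟨p t * (p t₀)⁻¹, hst t⟩ : yStab m)) ⁻¹'
        ((fun q : yStab m => τ (yqL q) ω) ⁻¹' D) := hone _ (mul_inv_cancel _)
    refine Filter.mem_of_superset (h2.mem_nhds h3) ?_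
    intro t ht
    have h4 := hgood _ ht
    change τ (p t * (p t₀)⁻¹) ω = ω at h4
    change τ (p t) ω = ω
    have h5 : τ (p t) ω = τ (p t * (p t₀)⁻¹) (τ (p t₀) ω) := by
      rw [h.mul, inv_mul_cancel_right]
    have h6 : τ (p t₀) ω = ω := ht₀
    rw [h5, h6, h4]
  have huniv : {t : ℝ | τ (p t) ω = ω} = Set.univ :=
    IsClopen.eq_univ ⟨hclosed, hopen⟩ ⟨0, by
      change τ (p 0) ω = ω
      rw [hp0, h.one]⟩
  have h1 : (1 : ℝ) ∈ {t : ℝ | τ (p t) ω = ω} := by rw [huniv]; exact Set.mem_univ _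
  change τ (p 1) ω = ω at h1
  rw [hp1] at h1
  exact h1

end Pool.Agent.Work.MP_20070e_gt.Y
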