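import Mathlib
import Pool.Agent.Work.MP_20070e_gt.X.DK

/-!
# Y/YFun (S-M): a subspace of codimension one is `ker tr (· F)`

Let `K = KK k g`: by `KK_tr` its elements have trace zero; by `KK_codim` it has codimension at most one in the space `V` of matrices of trace zero; `A₁ ∈ V \ K`.

(1) There is a linear functional `f` on all matrices with `f A₁ = 1`, `f = 0` on `K` and `f 1 = 0`: the vector `A₁` is not in the span of `K` and the identity `1` (if `A₁ = B + t 1`, the trace gives `t (m+1) = 0`), so `Submodule.exists_le_ker_of_notMem` (or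
`Submodule.exists_dual_map_eq_bot_of_notMem`) gives `f`, normalise.
(2) For `A ∈ V`: `A ∈ K ↔ f A = 0`: if `f A = 0`, `c A₁ + d A ∈ K` with `(c, d) ≠ 0`; applying `f`: `c = 0`, so `d ≠ 0` and `A ∈ K`.
(3) `F_ji := f (E_ij)`: `tr (A F) = ∑ A_ij F_ji = f A` for all `A`. `tr F = f 1 = 0`, `F ≠ 0` since `f A₁ = 1`.
(See also the proof of `KK_functional` in `X/DK`.)
-/

set_option autoImplicit false

open Matrix Topology Metric Filter

namespace Pool.Agent.Work.MP_20070e_gt.Y

open Pool.Agent.Work.MP_20070e_gt.X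

variable {m : ℕ} {Γ : Subgroup (SLn (m + 1))} {k : Sph (m + 1) → Submodule ℝ (Mat (m + 1))}

theorem exists_F (h : HypField Γ k) (g : SLn (m + 1))
    (hne : ∃ A : Mat (m + 1), A.trace = 0 ∧ A ∉ KK k g) :
    ∃ F : Mat (m + 1), F ≠ 0 ∧ F.trace = 0 ∧
      ∀ A : Mat (m + 1), A.trace = 0 → (A ∈ KK k g ↔ (A * F).trace = 0) := by
  obtain ⟨A₁, hA₁, hA₁K⟩ := hne
  have hS : A₁ ∉ KK k g ⊔ Submodule.span ℝ {(1 : Mat (m + 1))} := by
    intro h1
    obtain ⟨y, hy, z, hz, hyz⟩ := Submodule.mem_sup.1 h1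
    obtain ⟨t, rfl⟩ := Submodule.mem_span_singleton.1 hz
    have h2 := congrArg Matrix.trace hyz
    rw [Matrix.trace_add, KK_tr h hy, hA₁, zero_add, Matrix.trace_smul, Matrix.trace_one,
      Fintype.card_fin, smul_eq_mul] at h2
    have h3 : t = 0 := by
      rcases mul_eq_zero.1 h2 with h4 | h4
      · exact h4
      · exact absurd h4 (Nat.cast_ne_zero.2 (Nat.succ_ne_zero m))
    rw [h3, zero_smul, add_zero] at hyz
    exact hA₁K (hyz ▸ hy)
  obtain ⟨f, hf, hker⟩ := Submodule.exists_le_ker_of_notMem hS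
  have hfK : ∀ A ∈ KK k g, f A = 0 := fun A hA =>
    LinearMap.mem_ker.1 (hker (Submodule.mem_sup_left hA))
  have hf1 : f 1 = 0 :=
    LinearMap.mem_ker.1 (hker (Submodule.mem_sup_right (Submodule.mem_span_singleton_self _)))
  let F : Mat (m + 1) := Matrix.of fun j i => f (Matrix.single i j 1)
  have hF : ∀ A : Mat (m + 1), (A * F).trace = f A := by
    intro A
    have h1 : f A = ∑ i, ∑ j, A i j * f (Matrix.single i j 1) := by
      conv_lhs => rw [Matrix.matrix_eq_sum_single A]
      rw [map_sum]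
      refine Finset.sum_congr rfl fun i _ => ?_
      rw [map_sum]
      refine Finset.sum_congr rfl fun j _ => ?_
      rw [← smul_eq_mul, ← map_smul, Matrix.smul_single, smul_eq_mul, mul_one]
    rw [h1]
    simp only [Matrix.trace, Matrix.diag_apply, Matrix.mul_apply, F, Matrix.of_apply]
  refine ⟨F, ?_, ?_, ?_⟩
  · intro h1
    apply hf
    rw [← hF A₁, h1, mul_zero, Matrix.trace_zero]
  · have h1 := hF 1
    rw [one_mul, hf1] at h1
    exact h1
  · intro A hA
    rw [hF A]
    constructor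
    · exact hfK A
    · intro h1
      obtain ⟨c, d, hcd, hm⟩ := KK_codim h g A₁ A hA₁ hA
      have h2 := hfK _ hm
      rw [map_add, map_smul, map_smul, h1, smul_zero, add_zero, smul_eq_mul] at h2
      have hc : c = 0 := (mul_eq_zero.1 h2).resolve_right hf
      have hd : d ≠ 0 := hcd.resolve_left (fun h3 => h3 hc)
      rw [hc, zero_smul, zero_add] at hm
      have h4 := (KK k g).smul_mem d⁻¹ hm
      rwa [smul_smul, inv_mul_cancel₀ hd, one_smul] at h4

end Pool.Agent.Work.MP_20070e_gt.Y
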