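import Mathlib
import Pool.Agent.Work.MP_20070e_gt.Y.YDefs

/-!
# Y/YLim (M): limits of the hyperplanes `ker tr (· F)` under conjugation (pure linear algebra)

Let `D = dg m r`, `λ = e^{m+1}`, `F' = p⁻¹ F p`. Split `F' = F₊ + F₀ + F₋`: `F₊` the entries `(i, j)` with `i = r ≠ j`, `F₋` those with `j = r ≠ i`, `F₀` the others. `D^k F' D^{-k} = λ^k F₊ + F₀ + λ^{-k} F₋` (the entry `(i, j)` is multiplied by `(D_i / D_j)^k`). Put
`(c_k, F'_∞) = (λ^k, F₊)` if `F₊ ≠ 0`, `(1, F₀)` if `F₊ = 0`, `F₀ ≠ 0`, `(λ^{-k}, F₋)` otherwise (then `F₋ ≠ 0`). Let `a = p D p⁻¹`, `F_∞ = p F'_∞ p⁻¹`. Then `F̂_k := c_k⁻¹ a^k F a^{-k} → F_∞ ≠ 0` as `k → ∞`, `a F_∞ a⁻¹` is a multiple of `F_∞`, and `tr F_∞ = 0`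
(`F₊` and `F₋` have zero diagonals, `tr F₀ = tr F' = tr F = 0`).

Let `A` have trace zero with `tr (A F_∞) = 0`. Let `B = F_∞ᵀ`: trace zero, `tr (B F_∞) = ∑ (F_∞)_{ij}² > 0`. For `k = k_j` put `A_j = A - (tr (A F̂_k) / tr (B F̂_k)) B`: trace zero, `A_j → A`, and `tr (A_j F̂_k) = 0` as soon as `tr (B F̂_k) ≠ 0`, which holds for large `j` (for the other
finitely many `j` put `A_j = 0`). By `hlim`, `tr (A F) = 0`.

Apply this to `A = Fᵀ - (tr (Fᵀ F_∞) / tr (F_∞ᵀ F_∞)) F_∞ᵀ` (trace zero; `tr (A F_∞) = 0`): with the inner product `⟪X, Y⟫ = tr (Xᵀ Y) = ∑ X_ij Y_ij` we get `⟪F, F⟫ ⟪F_∞, F_∞⟫ = ⟪F, F_∞⟫²` (note `tr (F_∞ᵀ F) = tr (Fᵀ F_∞)`), so with `t = ⟪F, F_∞⟫ / ⟪F_∞, F_∞⟫`,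
`⟪F - t F_∞, F - t F_∞⟫ = 0`, i.e. `F = t F_∞`. So `a F a⁻¹` is a multiple of `F`.
-/

set_option autoImplicit false

open Matrix Topology Metric Filter

namespace Pool.Agent.Work.MP_20070e_gt.Y

open Pool.Agent.Work.MP_20070e_gt.X

variable {m : ℕ}

private theorem trace_sq_pos {n : ℕ} {M : Mat n} (h : M ≠ 0) : 0 < (Mᵀ * M).trace := by
  have h1 : (Mᵀ * M).trace = ∑ j, ∑ i, M i j * M i j := by
    simp [Matrix.trace, Matrix.mul_apply, Matrix.diag]
  rw [h1]
  by_contra hn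
  apply h
  have h2 : ∑ j, ∑ i, M i j * M i j = 0 := by
    apply le_antisymm (not_lt.1 hn)
    exact Finset.sum_nonneg fun j _ => Finset.sum_nonneg fun i _ => mul_self_nonneg _
  rw [Finset.sum_eq_zero_iff_of_nonneg
    (fun j _ => Finset.sum_nonneg fun i _ => mul_self_nonneg _)] at h2
  ext i j
  have h3 := h2 j (Finset.mem_univ j)
  rw [Finset.sum_eq_zero_iff_of_nonneg (fun i _ => mul_self_nonneg _)] at h3
  exact mul_self_eq_zero.1 (h3 i (Finset.mem_univ i))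

private theorem core {n : ℕ} {F G' : Mat n} {G M : ℕ → Mat n} {c : ℕ → ℝ}
    (hM : ∀ k, M k = c k • G k) (hG : Tendsto G atTop (𝓝 G'))
    (hG0 : G' ≠ 0) (htr : F.trace = 0) (htG : G'.trace = 0) {k : ℕ → ℕ}
    (hk : Tendsto k atTop atTop)
    (hlim : ∀ (A : ℕ → Mat n) (A' : Mat n), (∀ j, (A j).trace = 0) →
      (∀ j, (A j * M (k j)).trace = 0) → Tendsto A atTop (𝓝 A') → (A' * F).trace = 0) :
    ∃ s : ℝ, F = s • G' := by
  have hb : 0 < (G'ᵀ * G').trace := trace_sq_pos hG0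
  have hcont : ∀ A : Mat n, Tendsto (fun j => (A * G (k j)).trace) atTop (𝓝 (A * G').trace) := by
    intro A
    have h1 : Continuous fun X : Mat n => (A * X).trace := by fun_prop
    exact (h1.tendsto G').comp (hG.comp hk)
  have claim : ∀ A' : Mat n, A'.trace = 0 → (A' * G').trace = 0 → (A' * F).trace = 0 := by
    intro A' h1 h2
    refine hlim (fun j => if (G'ᵀ * G (k j)).trace = 0 then 0 else
      A' - ((A' * G (k j)).trace / (G'ᵀ * G (k j)).trace) • G'ᵀ) A' ?_ ?_ ?_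
    · intro j
      split_ifs with h3
      · exact Matrix.trace_zero _ _
      · rw [Matrix.trace_sub, Matrix.trace_smul, Matrix.trace_transpose, h1, htG, smul_zero,
          sub_zero]
    · intro j
      rw [hM]
      split_ifs with h3
      · rw [Matrix.zero_mul, Matrix.trace_zero]
      · rw [Matrix.mul_smul, Matrix.trace_smul, Matrix.sub_mul, Matrix.trace_sub, Matrix.smul_mul,
          Matrix.trace_smul, smul_eq_mul, smul_eq_mul, div_mul_cancel₀ _ h3, sub_self, mul_zero]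
    · have h3 := hcont G'ᵀ
      have h4 : ∀ᶠ j in atTop, (G'ᵀ * G (k j)).trace ≠ 0 := h3.eventually_ne hb.ne'
      have h5 : Tendsto (fun j => A' - ((A' * G (k j)).trace / (G'ᵀ * G (k j)).trace) • G'ᵀ)
          atTop (𝓝 A') := by
        have h6 : Tendsto (fun j => (A' * G (k j)).trace / (G'ᵀ * G (k j)).trace) atTop (𝓝 0) := by
          have h7 := (hcont A').div h3 hb.ne'
          rw [h2, zero_div] at h7
          exact h7
        have h8 := (tendsto_const_nhds (x := A')).sub (h6.smul (tendsto_const_nhds (x := G'ᵀ)))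
        rw [zero_smul, sub_zero] at h8
        exact h8
      refine h5.congr' ?_
      filter_upwards [h4] with j hj
      rw [if_neg hj]
  refine ⟨(Fᵀ * G').trace / (G'ᵀ * G').trace, ?_⟩
  set s := (Fᵀ * G').trace / (G'ᵀ * G').trace with hs
  have hsb : s * (G'ᵀ * G').trace = (Fᵀ * G').trace := by
    rw [hs, div_mul_cancel₀ _ hb.ne']
  have h1 := claim (Fᵀ - s • G'ᵀ) (by
    rw [Matrix.trace_sub, Matrix.trace_smul, Matrix.trace_transpose, Matrix.trace_transpose, htr,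
      htG, smul_zero, sub_zero]) (by
    rw [Matrix.sub_mul, Matrix.trace_sub, Matrix.smul_mul, Matrix.trace_smul, smul_eq_mul, hsb,
      sub_self])
  rw [Matrix.sub_mul, Matrix.trace_sub, Matrix.smul_mul, Matrix.trace_smul, smul_eq_mul] at h1
  by_contra hne
  have h2 : 0 < ((F - s • G')ᵀ * (F - s • G')).trace := trace_sq_pos (sub_ne_zero.2 hne)
  have h3 : ((F - s • G')ᵀ * (F - s • G')).trace = (Fᵀ * F).trace - s * (Fᵀ * G').trace -
      s * (G'ᵀ * F).trace + s * (s * (G'ᵀ * G').trace) := by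
    rw [Matrix.transpose_sub, Matrix.transpose_smul, Matrix.sub_mul, Matrix.mul_sub,
      Matrix.mul_sub, Matrix.trace_sub, Matrix.trace_sub, Matrix.trace_sub]
    simp only [Matrix.mul_smul, Matrix.smul_mul, Matrix.trace_smul, smul_eq_mul]
    ring
  rw [h3, hsb] at h2
  linarith

private theorem diag_part {n : ℕ} {d : Fin n → ℝ} (hd : ∀ i, 0 < d i) {F : Mat n} (hF : F ≠ 0)
    (htr : F.trace = 0) : ∃ (Λ : ℝ) (G' : Mat n), 0 < Λ ∧ G' ≠ 0 ∧ G'.trace = 0 ∧
      Matrix.diagonal d * G' * Matrix.diagonal (fun i => (d i)⁻¹) = Λ • G' ∧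
      Tendsto (fun k : ℕ => (Λ ^ k)⁻¹ • (Matrix.diagonal (fun i => d i ^ k) * F *
        Matrix.diagonal (fun i => (d i ^ k)⁻¹))) atTop (𝓝 G') := by
  classical
  have hne : (Finset.univ.filter fun x : Fin n × Fin n => F x.1 x.2 ≠ 0).Nonempty := by
    by_contra h
    rw [Finset.not_nonempty_iff_eq_empty, Finset.filter_eq_empty_iff] at h
    apply hF
    ext i j
    have := h (Finset.mem_univ (i, j))
    simpa using this
  obtain ⟨x0, hx0, hmax⟩ := Finset.exists_max_image _ (fun x : Fin n × Fin n => d x.1 / d x.2) hne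
  rw [Finset.mem_filter] at hx0
  have hΛ : 0 < d x0.1 / d x0.2 := div_pos (hd _) (hd _)
  refine ⟨d x0.1 / d x0.2, Matrix.of fun i j => if d i / d j = d x0.1 / d x0.2 then F i j else 0,
    hΛ, ?_, ?_, ?_, ?_⟩
  · intro h
    have := congrFun (congrFun h x0.1) x0.2
    simp only [Matrix.of_apply, if_true, Matrix.zero_apply] at this
    exact hx0.2 this
  · simp only [Matrix.trace, Matrix.diag, Matrix.of_apply]
    by_cases h1 : (1 : ℝ) = d x0.1 / d x0.2
    · rw [← htr]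
      unfold Matrix.trace
      refine Finset.sum_congr rfl fun i _ => ?_
      rw [div_self (hd i).ne', if_pos h1]
      rfl
    · refine Finset.sum_eq_zero fun i _ => ?_
      rw [div_self (hd i).ne', if_neg h1]
  · ext i j
    simp only [Matrix.diagonal_mul, Matrix.mul_diagonal, Matrix.of_apply, Matrix.smul_apply,
      smul_eq_mul]
    split_ifs with h1
    · rw [← h1]
      ring
    · simp
  · refine tendsto_pi_nhds.2 fun i => tendsto_pi_nhds.2 fun j => ?_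
    have h1 : ∀ k : ℕ, ((d x0.1 / d x0.2) ^ k)⁻¹ * (d i ^ k * F i j * (d j ^ k)⁻¹) =
        ((d i / d j) / (d x0.1 / d x0.2)) ^ k * F i j := by
      intro k
      rw [div_pow (d i / d j), div_pow (d i)]
      field_simp
    simp only [Matrix.diagonal_mul, Matrix.mul_diagonal, Matrix.of_apply, Matrix.smul_apply,
      smul_eq_mul, h1]
    have hr0 : 0 ≤ (d i / d j) / (d x0.1 / d x0.2) := (div_pos (div_pos (hd _) (hd _)) hΛ).le
    split_ifs with h2
    · rw [h2, div_self hΛ.ne']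
      simp
    · by_cases h3 : F i j = 0
      · simp [h3]
      · have h4 := hmax (i, j) (by simp [h3])
        have h5 : (d i / d j) / (d x0.1 / d x0.2) < 1 := by
          rw [div_lt_one hΛ]
          exact lt_of_le_of_ne h4 h2
        have h6 := (tendsto_pow_atTop_nhds_zero_of_lt_one hr0 h5).mul_const (F i j)
        rw [zero_mul] at h6
        exact h6

theorem eig_of_limit (r : Fin (m + 1)) (p a : SLn (m + 1)) (ha : a = p * dg m r * p⁻¹)
    (F : Mat (m + 1)) (hF : F ≠ 0) (htr : F.trace = 0) (k : ℕ → ℕ) (hk : Tendsto k atTop atTop)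
    (hlim : ∀ (A : ℕ → Mat (m + 1)) (A' : Mat (m + 1)), (∀ j, (A j).trace = 0) →
      (∀ j, (A j * ((a ^ (k j)).1 * F * ((a ^ (k j))⁻¹).1)).trace = 0) →
      Tendsto A atTop (𝓝 A') → (A' * F).trace = 0) :
    ∃ c : ℝ, a.1 * F * (a⁻¹).1 = c • F := by
  have hPQ : p.1 * (p⁻¹).1 = 1 := by
    rw [← Matrix.SpecialLinearGroup.coe_mul, mul_inv_cancel, Matrix.SpecialLinearGroup.coe_one]
  have hQP : (p⁻¹).1 * p.1 = 1 := by
    rw [← Matrix.SpecialLinearGroup.coe_mul, inv_mul_cancel, Matrix.SpecialLinearGroup.coe_one]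
  obtain ⟨d, hd, hD⟩ : ∃ d : Fin (m + 1) → ℝ, (∀ i, 0 < d i) ∧ (dg m r).1 = Matrix.diagonal d := by
    refine ⟨fun i => if i = r then Real.exp m else Real.exp (-1), fun i => ?_, rfl⟩
    dsimp only
    split_ifs
    · exact Real.exp_pos _
    · exact Real.exp_pos _
  have hDk : ∀ k : ℕ, ((dg m r) ^ k).1 = Matrix.diagonal (fun i => d i ^ k) := by
    intro k
    rw [Matrix.SpecialLinearGroup.coe_pow, hD, Matrix.diagonal_pow]
    rfl
  have hDi : ∀ k : ℕ, (((dg m r) ^ k)⁻¹).1 = Matrix.diagonal (fun i => (d i ^ k)⁻¹) := by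
    intro k
    have h1 : ((dg m r) ^ k).1 * (((dg m r) ^ k)⁻¹).1 = 1 := by
      rw [← Matrix.SpecialLinearGroup.coe_mul, mul_inv_cancel, Matrix.SpecialLinearGroup.coe_one]
    have h2 : Matrix.diagonal (fun i => (d i ^ k)⁻¹) * ((dg m r) ^ k).1 = 1 := by
      rw [hDk, Matrix.diagonal_mul_diagonal, ← Matrix.diagonal_one]
      congr 1
      ext i
      exact inv_mul_cancel₀ (pow_pos (hd i) k).ne'
    exact (left_inv_eq_right_inv h2 h1).symm
  have hF' : (p⁻¹).1 * F * p.1 ≠ 0 := by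
    intro h
    apply hF
    have h1 : F = p.1 * ((p⁻¹).1 * F * p.1) * (p⁻¹).1 := by
      rw [Matrix.mul_assoc, Matrix.mul_assoc, Matrix.mul_assoc, hPQ, Matrix.mul_one,
        ← Matrix.mul_assoc, hPQ, Matrix.one_mul]
    rw [h1, h, Matrix.mul_zero, Matrix.zero_mul]
  have htF' : ((p⁻¹).1 * F * p.1).trace = 0 := by
    rw [Matrix.trace_mul_cycle, hPQ, Matrix.one_mul, htr]
  obtain ⟨Λ, G', hΛ, hG0, htG, hcG, hlimG⟩ := diag_part hd hF' htF'
  have hak : ∀ j : ℕ, (a ^ j).1 * F * ((a ^ j)⁻¹).1 =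
      p.1 * (Matrix.diagonal (fun i => d i ^ j) * ((p⁻¹).1 * F * p.1) *
        Matrix.diagonal (fun i => (d i ^ j)⁻¹)) * (p⁻¹).1 := by
    intro j
    have e1 : a ^ j = p * (dg m r) ^ j * p⁻¹ := by rw [ha, conj_pow]
    have e2 : (a ^ j)⁻¹ = p * ((dg m r) ^ j)⁻¹ * p⁻¹ := by rw [e1, conj_inv]
    rw [e2, e1, Matrix.SpecialLinearGroup.coe_mul, Matrix.SpecialLinearGroup.coe_mul,
      Matrix.SpecialLinearGroup.coe_mul, Matrix.SpecialLinearGroup.coe_mul, hDk, hDi]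
    simp only [Matrix.mul_assoc]
  have hgen := core (F := F) (G' := p.1 * G' * (p⁻¹).1)
    (G := fun j => p.1 * ((Λ ^ j)⁻¹ • (Matrix.diagonal (fun i => d i ^ j) *
      ((p⁻¹).1 * F * p.1) * Matrix.diagonal (fun i => (d i ^ j)⁻¹))) * (p⁻¹).1)
    (M := fun j => (a ^ j).1 * F * ((a ^ j)⁻¹).1) (c := fun j => Λ ^ j) ?_ ?_ ?_ htr ?_ hk hlim
  · obtain ⟨s, hs⟩ := hgen
    refine ⟨Λ, ?_⟩
    have h1 := hak 1
    simp only [pow_one] at h1
    have e1 : a.1 * F * (a⁻¹).1 = s • (a.1 * (p.1 * G' * (p⁻¹).1) * (a⁻¹).1) := by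
      conv_lhs => rw [hs]
      rw [Matrix.mul_smul, Matrix.smul_mul]
    have e2 : a.1 * (p.1 * G' * (p⁻¹).1) * (a⁻¹).1 = Λ • (p.1 * G' * (p⁻¹).1) := by
      have e3 : a⁻¹ = p * (dg m r)⁻¹ * p⁻¹ := by rw [ha, conj_inv]
      have e4 : ((dg m r)⁻¹).1 = Matrix.diagonal (fun i => (d i)⁻¹) := by
        have := hDi 1
        simpa using this
      have e5 : a.1 = p.1 * Matrix.diagonal d * (p⁻¹).1 := by
        rw [ha, Matrix.SpecialLinearGroup.coe_mul, Matrix.SpecialLinearGroup.coe_mul, hD]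
      rw [e3, Matrix.SpecialLinearGroup.coe_mul, Matrix.SpecialLinearGroup.coe_mul, e4, e5]
      have e6 : p.1 * Matrix.diagonal d * (p⁻¹).1 * (p.1 * G' * (p⁻¹).1) *
          (p.1 * Matrix.diagonal (fun i => (d i)⁻¹) * (p⁻¹).1) =
          p.1 * (Matrix.diagonal d * ((p⁻¹).1 * p.1) * G' * ((p⁻¹).1 * p.1) *
            Matrix.diagonal (fun i => (d i)⁻¹)) * (p⁻¹).1 := by
        simp only [Matrix.mul_assoc]
      rw [e6, hQP, Matrix.mul_one, Matrix.mul_one, hcG, Matrix.mul_smul, Matrix.smul_mul]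
    rw [e1, e2, smul_comm, ← hs]
  · intro j
    rw [hak j, Matrix.mul_smul, Matrix.smul_mul, smul_smul, mul_inv_cancel₀ (pow_pos hΛ j).ne',
      one_smul]
  · have h1 : Continuous fun X : Mat (m + 1) => p.1 * X * (p⁻¹).1 := by fun_prop
    exact (h1.tendsto G').comp hlimG
  · intro h
    apply hG0
    have h1 : G' = (p⁻¹).1 * (p.1 * G' * (p⁻¹).1) * p.1 := by
      rw [Matrix.mul_assoc, Matrix.mul_assoc, Matrix.mul_assoc, hQP, Matrix.mul_one,
        ← Matrix.mul_assoc, hQP, Matrix.one_mul]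
    rw [h1, h, Matrix.mul_zero, Matrix.zero_mul]
  · rw [Matrix.trace_mul_cycle, hQP, Matrix.one_mul, htG]

end Pool.Agent.Work.MP_20070e_gt.Y
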