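import Mathlib
import Pool.Agent.Work.MP_20070e_gt.X.DK
import Pool.Agent.Work.MP_20070e_gt.Y.YRec
import Pool.Agent.Work.MP_20070e_gt.Y.YLim
import Pool.Agent.Work.MP_20070e_gt.Y.YEig
import Pool.Agent.Work.MP_20070e_gt.Y.YFun

/-!
# Y/YHyp (M): there is no closed `Γ`-equivariant field of hyperplanes in `sl_n` on the sphere

Suppose `A₀ ∉ k x₀`, `tr A₀ = 0`. `x₀ = sphAct g₀⁻¹ (oo m)` with `g₀⁻¹` a rotation (`exists_rot`), `A₁ := g₀ A₀ g₀⁻¹ ∉ KK k g₀` (`mem_k_iff`), `tr A₁ = 0`. The set `O = {g | A₁ ∉ KK k g}` is open (`KK_closed` for constant `A`, and sequences suffice: `SL_n(ℝ)` is first countable, `X/El`) and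
contains `g₀`. Let `S` be the finite set of the `dg m r` and the `tv hij 1 * dg m r * (tv hij 1)⁻¹`, `i ≠ j`, `j ≠ 0` (countable: ranges of finite types). `rec_dense` gives `g ∈ O`, recurrent under all of them. `exists_F` gives `F ≠ 0`, `tr F = 0`.

Let `a ∈ S`, `a = p * dg m r * p⁻¹` (`p = 1` or `p = tv hij 1`). `sphAct a (oo m) = oo m` (`dg m r` multiplies `e₀` by a positive number; `p` fixes `e₀` because `j ≠ 0`), so `sphAct (a^k) (oo m) = oo m`. Check `hlim` of `eig_of_limit`: let `A_j → A'`, traces zero,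
`tr (A_j a^{k_j} F a^{-k_j}) = 0`. Then `A'_j := a^{-k_j} A_j a^{k_j}` has trace zero and `tr (A'_j F) = 0`, so `A'_j ∈ KK k g`, so `A_j ∈ KK k (a^{k_j} * g)` (`KK_mul_left`) `= KK k (a^{k_j} * g * γ_j)` (`KK_mul_right`). By `KK_closed`, `A' ∈ KK k g` (`tr A' = 0` by
continuity), so `tr (A' F) = 0`.

So `F` is an eigenvector for all `a ∈ S`, and `F = 0` by `no_eigenvector`: contradiction.
-/

set_option autoImplicit false

open Matrix Topology Metric Filter

namespace Pool.Agent.Work.MP_20070e_gt.Y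

open Pool.Agent.Work.MP_20070e_gt.X

private theorem fix_of_lin {m : ℕ} {g : SLn (m + 1)} {l : ℝ} (hl : 0 < l)
    (h : lin g (e0 m) = l • e0 m) : sphAct g (oo m) = oo m := by
  apply Subtype.ext
  change (‖lin g (e0 m)‖)⁻¹ • lin g (e0 m) = e0 m
  rw [h, norm_smul, norm_e0, mul_one, Real.norm_of_nonneg hl.le, smul_smul,
    inv_mul_cancel₀ hl.ne', one_smul]

private theorem fix_dg {m : ℕ} (r : Fin (m + 1)) : sphAct (dg m r) (oo m) = oo m := by
  have hl : 0 < (if (0 : Fin (m + 1)) = r then Real.exp m else Real.exp (-1)) := by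
    split_ifs <;> exact Real.exp_pos _
  refine fix_of_lin hl ?_
  ext i
  change ((Matrix.diagonal (fun i => if i = r then Real.exp m else Real.exp (-1))) *ᵥ
    (e0 m).ofLp) i = (if (0 : Fin (m + 1)) = r then Real.exp m else Real.exp (-1)) * (e0 m) i
  rw [Matrix.mulVec_diagonal]
  by_cases h : i = 0
  · subst h
    rfl
  · have h1 : (e0 m).ofLp i = 0 := by
      unfold e0
      simp [h]
    rw [h1, mul_zero, mul_zero]

private theorem fix_tv {m : ℕ} {i j : Fin (m + 1)} (hij : i ≠ j) (hj : j ≠ 0) (t : ℝ) :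
    sphAct (tv hij t) (oo m) = oo m := by
  apply fix_of_lin one_pos
  rw [one_smul]
  ext a
  change ((tv hij t).1 *ᵥ (e0 m).ofLp) a = (e0 m) a
  rw [SpecialLinearGroup.transvection_coe, Matrix.add_mulVec, Matrix.one_mulVec]
  have h1 : ((Matrix.single i j t) *ᵥ (e0 m).ofLp) a = 0 := by
    rw [Matrix.mulVec, dotProduct]
    apply Finset.sum_eq_zero
    intro k _
    unfold e0
    by_cases hk : k = 0
    · subst hk
      rw [Matrix.single_apply]
      have : ¬ (i = a ∧ j = 0) := fun h => hj h.2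
      rw [if_neg this, zero_mul]
    · have : (EuclideanSpace.single (0 : Fin (m + 1)) (1 : ℝ)).ofLp k = 0 := by
        simp [hk]
      rw [this, mul_zero]
  rw [Pi.add_apply, h1, add_zero]

private theorem fix_inv {m : ℕ} {g : SLn (m + 1)} (h : sphAct g (oo m) = oo m) :
    sphAct g⁻¹ (oo m) = oo m := by
  conv_lhs => rw [← h]
  rw [← sphAct_mul, inv_mul_cancel, sphAct_one]

private theorem fix_pow {m : ℕ} {g : SLn (m + 1)} (h : sphAct g (oo m) = oo m) (k : ℕ) :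
    sphAct (g ^ k) (oo m) = oo m := by
  induction k with
  | zero => rw [pow_zero, sphAct_one]
  | succ k ih => rw [pow_succ, sphAct_mul, h, ih]

private theorem key_eig {m : ℕ} {Γ : Subgroup (SLn (m + 1))}
    {k : Sph (m + 1) → Submodule ℝ (Mat (m + 1))} (h : HypField Γ k) {g : SLn (m + 1)}
    {F : Mat (m + 1)} (hF0 : F ≠ 0) (hFtr : F.trace = 0)
    (hFK : ∀ A : Mat (m + 1), A.trace = 0 → (A ∈ KK k g ↔ (A * F).trace = 0))
    (r : Fin (m + 1)) (p : SLn (m + 1)) (hp : sphAct p (oo m) = oo m)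
    (hrec : Recur Γ (p * dg m r * p⁻¹) g) :
    ∃ c : ℝ, (p * dg m r * p⁻¹).1 * F * ((p * dg m r * p⁻¹)⁻¹).1 = c • F := by
  obtain ⟨kk, γ, hk, hγ, hlim⟩ := hrec
  refine eig_of_limit r p _ rfl F hF0 hFtr kk hk ?_
  intro A A' htrA htrAF hA
  set a : SLn (m + 1) := p * dg m r * p⁻¹ with ha
  have hfa : sphAct a (oo m) = oo m := by
    rw [ha, sphAct_mul, sphAct_mul, fix_inv hp, fix_dg, hp]
  have hmem : ∀ j, A j ∈ KK k (a ^ (kk j) * g * γ j) := by
    intro j
    rw [KK_mul_right h _ (hγ j), KK_mul_left (fix_pow hfa (kk j))]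
    have hi : (a ^ (kk j)).1 * ((a ^ (kk j))⁻¹).1 = 1 :=
      congrArg Subtype.val (mul_inv_cancel (a ^ (kk j)))
    have ht : (((a ^ (kk j))⁻¹).1 * A j * (a ^ (kk j)).1).trace = 0 := by
      rw [Matrix.trace_mul_cycle, hi, one_mul]
      exact htrA j
    rw [hFK _ ht]
    have h1 := htrAF j
    have e : ((a ^ (kk j))⁻¹).1 * A j * (a ^ (kk j)).1 * F =
        ((a ^ (kk j))⁻¹).1 * (A j * (a ^ (kk j)).1 * F) := by
      simp only [mul_assoc]
    rw [e, Matrix.trace_mul_comm]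
    have e2 : A j * (a ^ (kk j)).1 * F * ((a ^ (kk j))⁻¹).1 =
        A j * ((a ^ (kk j)).1 * F * ((a ^ (kk j))⁻¹).1) := by
      simp only [mul_assoc]
    rw [e2]
    exact h1
  have hA' : A' ∈ KK k g := KK_closed h _ A g A' hmem hlim hA
  exact (hFK A' (KK_tr h hA')).1 hA'

theorem hypField_top_lat {m : ℕ} (hm : 2 ≤ m) {Γ : Subgroup (SLn (m + 1))} (hΓ : IsLattice Γ)
    {k : Sph (m + 1) → Submodule ℝ (Mat (m + 1))} (h : HypField Γ k) :
    ∀ x, ∀ A : Mat (m + 1), A.trace = 0 → A ∈ k x := by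
  intro x0 A0 hA0
  by_contra hA0k
  obtain ⟨g1, -, -, hg1⟩ := exists_rot (m := m) (by omega) x0
  have hx0 : sphAct (g1⁻¹)⁻¹ (oo m) = x0 := by rw [inv_inv]; exact hg1
  rw [← hx0, mem_k_iff] at hA0k
  set g0 : SLn (m + 1) := g1⁻¹ with hg0
  have hvi : (g0⁻¹).1 * g0.1 = 1 := congrArg Subtype.val (inv_mul_cancel g0)
  have htr1 : (g0.1 * A0 * (g0⁻¹).1).trace = 0 := by
    rw [Matrix.trace_mul_cycle, hvi, one_mul]
    exact hA0
  generalize g0.1 * A0 * (g0⁻¹).1 = A1 at hA0k htr1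
  have hcl : IsClosed {g : SLn (m + 1) | A1 ∈ KK k g} := by
    apply IsSeqClosed.isClosed
    intro y q hy hq
    exact KK_closed h y (fun _ => A1) q A1 hy hq tendsto_const_nhds
  let S : Set (SLn (m + 1)) := Set.range (fun r : Fin (m + 1) => dg m r) ∪
    Set.range (fun q : {ij : Fin (m + 1) × Fin (m + 1) // ij.1 ≠ ij.2} × Fin (m + 1) =>
      tv q.1.2 1 * dg m q.2 * (tv q.1.2 1)⁻¹)
  have hS : S.Countable := (Set.countable_range _).union (Set.countable_range _)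
  obtain ⟨g, hgO, hrec⟩ := rec_dense hm hΓ S hS _ hcl.isOpen_compl ⟨g0, hA0k⟩
  obtain ⟨F, hF0, hFtr, hFK⟩ := exists_F h g ⟨A1, htr1, hgO⟩
  refine hF0 (no_eigenvector hm F hFtr (fun r => ?_) (fun i j hij hj r => ?_))
  · have h1 : Recur Γ (1 * dg m r * (1 : SLn (m + 1))⁻¹) g := by
      rw [one_mul, inv_one, mul_one]
      exact hrec _ (Or.inl ⟨r, rfl⟩)
    have h2 := key_eig h hF0 hFtr hFK r 1 (sphAct_one _) h1
    rw [one_mul, inv_one, mul_one] at h2
    exact h2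
  · exact key_eig h hF0 hFtr hFK r (tv hij 1) (fix_tv hij hj 1)
      (hrec _ (Or.inr ⟨⟨⟨(i, j), hij⟩, r⟩, rfl⟩))

end Pool.Agent.Work.MP_20070e_gt.Y
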