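import Mathlib
import Pool.Agent.Work.MP_20070e_gt.Y.YFix

/-!
# Y/YOmg (S-M): the equivariant map

Let `ω` be as in `exists_fix_lat`. Define `Ω x = τ (g_x) ω` where `g_x` is the rotation of `exists_rot` (`sphAct g_x o = x`). If `sphAct g o = x` then `g_x⁻¹ g` fixes `o`, so `τ g ω = Ω x`. Hence `Ω (sphAct g x) = τ g (Ω x)`. Continuity: `x_j → x`: the `g_{x_j}` are in the
compact set `compact_box 1`; along a subsequence `g_{x_j} → g`, `sphAct g o = x`, and `Ω x_j = τ g_{x_j} ω → τ g ω = Ω x` (sequential continuity with subsequences; the sphere is metrizable). The same as `exists_Omega` in `X/SFix`.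
-/

set_option autoImplicit false

open Matrix Topology Metric Filter

namespace Pool.Agent.Work.MP_20070e_gt.Y

open Pool.Agent.Work.MP_20070e_gt.X

variable {m : ℕ}

private theorem cont_of_box {X : Type} [TopologicalSpace X] (K : Set (SLn (m + 1)))
    (hK : IsCompact K) (G : Sph (m + 1) → SLn (m + 1)) (hG1 : ∀ x, G x ∈ K)
    (hG3 : ∀ x, sphAct (G x) (oo m) = x) (f : SLn (m + 1) → X) (hf : Continuous f)
    (hwd : ∀ g x, sphAct g (oo m) = x → f g = f (G x)) : Continuous (fun x => f (G x)) := by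
  have hKc : CompactSpace K := isCompact_iff_compactSpace.1 hK
  have he1 : Continuous (fun g : SLn (m + 1) => (g, oo m)) :=
    continuous_id.prodMk continuous_const
  have he0 : Continuous (fun g : SLn (m + 1) => sphAct g (oo m)) := by
    have he2 := (sphAct_continuous (n := m + 1)).comp he1
    exact he2
  have he : Continuous (fun g : K => sphAct g.1 (oo m)) := he0.comp continuous_subtype_val
  have hs : Function.Surjective (fun g : K => sphAct g.1 (oo m)) := by
    intro x
    exact ⟨⟨G x, hG1 x⟩, hG3 x⟩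
  have hq : IsQuotientMap (fun g : K => sphAct g.1 (oo m)) := (he.isClosedMap).isQuotientMap he hs
  refine hq.continuous_iff.2 ?_
  have h1 : ((fun x => f (G x)) ∘ fun g : K => sphAct g.1 (oo m)) = fun g : K => f g.1 := by
    funext g
    exact (hwd g.1 _ rfl).symm
  rw [h1]
  exact hf.comp continuous_subtype_val

theorem exists_Omega_lat {proj : Prop} (hm : 2 ≤ m) {Γ : Subgroup (SLn (m + 1))}
    (hΓ : IsLattice Γ) {X : Type} [TopologicalSpace X] {π : Sph (m + 1) → X}
    {τ : SLn (m + 1) → X → X} (h : SphSys proj Γ X π τ) :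
    ∃ Ω : Sph (m + 1) → X, Continuous Ω ∧ ∀ g x, Ω (sphAct g x) = τ g (Ω x) := by
  obtain ⟨ω, hω⟩ := exists_fix_lat hm hΓ h
  have hG : ∀ x : Sph (m + 1), ∃ g : SLn (m + 1), g ∈ {h : SLn (m + 1) | ∀ i j, |h.1 i j| ≤ 1} ∧
      sphAct g (oo m) = x := by
    intro x
    obtain ⟨g, h1, _, h3⟩ := exists_rot (m := m) (by omega) x
    exact ⟨g, h1, h3⟩
  choose G hG1 hG3 using hG
  have hwd : ∀ g x, sphAct g (oo m) = x → τ g ω = τ (G x) ω := by
    intro g x hg
    have h0 : sphAct (G x)⁻¹ x = oo m := by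
      have h4 := congrArg (sphAct (G x)⁻¹) (hG3 x)
      rw [← sphAct_mul, inv_mul_cancel, sphAct_one] at h4
      exact h4.symm
    have h1 : sphAct ((G x)⁻¹ * g) (oo m) = oo m := by
      rw [sphAct_mul, hg, h0]
    have h2 := hω _ h1
    have h3 : τ (G x) (τ ((G x)⁻¹ * g) ω) = τ g ω := by
      rw [h.mul, mul_inv_cancel_left]
    rw [← h3, h2]
  refine ⟨fun x => τ (G x) ω, ?_, ?_⟩
  · exact cont_of_box _ (compact_box 1) G hG1 hG3 (fun g => τ g ω)
      (h.τc.comp (continuous_id.prodMk continuous_const)) hwd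
  · intro g x
    change τ (G (sphAct g x)) ω = τ g (τ (G x) ω)
    rw [h.mul]
    refine (hwd (g * G x) _ ?_).symm
    rw [sphAct_mul, hG3]

end Pool.Agent.Work.MP_20070e_gt.Y
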