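import Mathlib
import Pool.Agent.Work.MP_20070e_gt.Y.YOmg
import Pool.Agent.Work.MP_20070e_gt.Y.YDeg
import Pool.Agent.Work.MP_20070e_gt.Y.YApp

/-!
# Y/YStd (S-M): the action of `G` is the standard one

`Omega_pt_lat`: the set `{x | Ω x = π x ∨ Ω x = π (-x)}` is closed (`X` Hausdorff). If it is not everything, its complement `O` is open and nonempty, and `approx_lat` gives `x ∈ O`, `γ_k ∈ Γ`, `s_k > 0`, `κ`. Now the proof of `Omega_pt` in `X/SStd` word for word (with `nondeg_lat`)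
shows `Ω x = π x ∨ Ω x = π (-x)`: contradiction.

`standard_lat`: the proof of `standard` in `X/SStd` word for word (with `exists_Omega_lat`, `Omega_pt_lat`).
-/

set_option autoImplicit false

open Matrix Topology Metric Filter

namespace Pool.Agent.Work.MP_20070e_gt.Y

open Pool.Agent.Work.MP_20070e_gt.X

variable {m : ℕ}

private theorem lin_smul' {n : ℕ} (g : SLn n) (a : ℝ) (v : Eu n) : lin g (a • v) = a • lin g v := by
  rw [lin_eq, lin_eq, map_smul]

private theorem sph_norm {n : ℕ} (x : Sph n) : ‖(x : Eu n)‖ = 1 := mem_sphere_zero_iff_norm.1 x.2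

private theorem sph_ne {n : ℕ} (x : Sph n) : (x : Eu n) ≠ 0 := by
  intro h
  have h1 := sph_norm x
  rw [h, norm_zero] at h1
  exact zero_ne_one h1

private theorem conv_norm {n : ℕ} {γ : ℕ → SLn n} {s : ℕ → ℝ} (hs : ∀ k, 0 < s k) (y : Sph n)
    (x x' : Sph n) (a : ℝ) (ha : a ≠ 0)
    (h : Tendsto (fun k => s k • lin (γ k) (y : Eu n)) atTop (𝓝 (a • (x : Eu n))))
    (hx' : (|a|⁻¹ * a) • (x : Eu n) = (x' : Eu n)) :
    Tendsto (fun k => sphAct (γ k) y) atTop (𝓝 x') := by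
  rw [tendsto_subtype_rng]
  have hne : ‖a • (x : Eu n)‖ ≠ 0 := by
    rw [norm_smul, sph_norm, mul_one, Real.norm_eq_abs]
    exact abs_ne_zero.2 ha
  have h1 := (h.norm.inv₀ hne).smul h
  have h2 : ‖a • (x : Eu n)‖⁻¹ • a • (x : Eu n) = (x' : Eu n) := by
    rw [norm_smul, sph_norm, mul_one, Real.norm_eq_abs, smul_smul, hx']
  rw [h2] at h1
  refine h1.congr fun k => ?_
  change ‖s k • lin (γ k) (y : Eu n)‖⁻¹ • s k • lin (γ k) (y : Eu n) =
    (‖lin (γ k) (y : Eu n)‖)⁻¹ • lin (γ k) (y : Eu n)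
  rw [norm_smul, Real.norm_eq_abs, abs_of_pos (hs k), mul_inv, smul_smul]
  congr 1
  rw [mul_right_comm, inv_mul_cancel₀ (hs k).ne', one_mul]

private theorem Omega_core {proj : Prop} (hm : 2 ≤ m) {Γ : Subgroup (SLn (m + 1))}
    (hΓ : IsLattice Γ) {X : Type} [TopologicalSpace X] {π : Sph (m + 1) → X}
    {τ : SLn (m + 1) → X → X} (h : SphSys proj Γ X π τ) (Ω : Sph (m + 1) → X)
    (hc : Continuous Ω) (hΩ : ∀ γ ∈ Γ, ∀ x, Ω (sphAct γ x) = τ γ (Ω x)) (x : Sph (m + 1))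
    (γ : ℕ → SLn (m + 1)) (s : ℕ → ℝ) (κ : SLn (m + 1)) (hγ : ∀ k, γ k ∈ Γ) (hs : ∀ k, 0 < s k)
    (happ : ∀ (z : ℕ → Eu (m + 1)) (z' : Eu (m + 1)), Tendsto z atTop (𝓝 z') →
        Tendsto (fun k => s k • lin (γ k) (z k)) atTop
          (𝓝 ((lin κ z') 0 • (x : Eu (m + 1))))) :
    Ω x = π x ∨ Ω x = π (-x) := by
  have hT2 := h.t2
  have hcont : Continuous fun z : Sph (m + 1) => (lin κ (z : Eu (m + 1))) 0 := by
    have h1 : Continuous fun z : Sph (m + 1) => lin κ (z : Eu (m + 1)) :=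
      lin_continuous.comp (continuous_const.prodMk continuous_subtype_val)
    exact (EuclideanSpace.proj (𝕜 := ℝ) (0 : Fin (m + 1))).continuous.comp h1
  have hV : IsOpen {z : Sph (m + 1) | 0 < (lin κ (z : Eu (m + 1))) 0} :=
    isOpen_lt continuous_const hcont
  have hne : {z : Sph (m + 1) | 0 < (lin κ (z : Eu (m + 1))) 0}.Nonempty := by
    refine ⟨sphAct κ⁻¹ (oo m), ?_⟩
    change 0 < (lin κ ((‖lin κ⁻¹ ((oo m : Sph (m + 1)) : Eu (m + 1))‖)⁻¹ •
      lin κ⁻¹ ((oo m : Sph (m + 1)) : Eu (m + 1)))) 0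
    rw [lin_smul', ← lin_mul, mul_inv_cancel, lin_one]
    have h2 : 0 < (‖lin κ⁻¹ ((oo m : Sph (m + 1)) : Eu (m + 1))‖)⁻¹ :=
      inv_pos.2 (norm_pos_iff.2 (lin_ne_zero _ (sph_ne _)))
    have h3 : ((‖lin κ⁻¹ ((oo m : Sph (m + 1)) : Eu (m + 1))‖)⁻¹ •
        ((oo m : Sph (m + 1)) : Eu (m + 1))) 0 =
        (‖lin κ⁻¹ ((oo m : Sph (m + 1)) : Eu (m + 1))‖)⁻¹ := by
      simp [oo, e0]
    rw [h3]
    exact h2
  obtain ⟨z, hz, w, hzw, hw⟩ := nondeg_lat hm hΓ h Ω hΩ κ _ hV hne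
  have hz' : 0 < (lin κ (z : Eu (m + 1))) 0 := hz
  have hzc : Tendsto (fun k => sphAct (γ k) z) atTop (𝓝 x) := by
    refine conv_norm hs z x x _ hz'.ne' (happ (fun _ => (z : Eu (m + 1))) _ tendsto_const_nhds) ?_
    rw [abs_of_pos hz', inv_mul_cancel₀ hz'.ne', one_smul]
  have h1 : Tendsto (fun k => Ω (sphAct (γ k) z)) atTop (𝓝 (Ω x)) := (hc.tendsto x).comp hzc
  have h2 : ∀ k, Ω (sphAct (γ k) z) = π (sphAct (γ k) w) := fun k => by
    rw [hΩ _ (hγ k), hzw, h.gam _ (hγ k)]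
  simp only [h2] at h1
  rcases lt_or_gt_of_ne hw with hw' | hw'
  · right
    have hwc : Tendsto (fun k => sphAct (γ k) w) atTop (𝓝 (-x)) := by
      refine conv_norm hs w x (-x) _ hw (happ (fun _ => (w : Eu (m + 1))) _ tendsto_const_nhds) ?_
      rw [abs_of_neg hw', inv_neg, neg_mul, inv_mul_cancel₀ hw, neg_smul, one_smul]
      rfl
    exact tendsto_nhds_unique h1 ((h.πc.tendsto _).comp hwc)
  · left
    have hwc : Tendsto (fun k => sphAct (γ k) w) atTop (𝓝 x) := by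
      refine conv_norm hs w x x _ hw (happ (fun _ => (w : Eu (m + 1))) _ tendsto_const_nhds) ?_
      rw [abs_of_pos hw', inv_mul_cancel₀ hw, one_smul]
    exact tendsto_nhds_unique h1 ((h.πc.tendsto _).comp hwc)

theorem Omega_pt_lat {proj : Prop} (hm : 2 ≤ m) {Γ : Subgroup (SLn (m + 1))}
    (hΓ : IsLattice Γ) {X : Type} [TopologicalSpace X] {π : Sph (m + 1) → X}
    {τ : SLn (m + 1) → X → X} (h : SphSys proj Γ X π τ) (Ω : Sph (m + 1) → X)
    (hc : Continuous Ω) (hΩ : ∀ γ ∈ Γ, ∀ x, Ω (sphAct γ x) = τ γ (Ω x)) (x : Sph (m + 1)) :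
    Ω x = π x ∨ Ω x = π (-x) := by
  have hT2 := h.t2
  by_contra hcon
  have hneg : Continuous fun x : Sph (m + 1) => -x := continuous_neg
  have hA : IsClosed {x : Sph (m + 1) | Ω x = π x} := isClosed_eq hc h.πc
  have hB : IsClosed {x : Sph (m + 1) | Ω x = π (-x)} := isClosed_eq hc (h.πc.comp hneg)
  have hO : IsOpen ({x : Sph (m + 1) | Ω x = π x} ∪ {x : Sph (m + 1) | Ω x = π (-x)})ᶜ :=
    (hA.union hB).isOpen_compl
  obtain ⟨y, hy, γ, s, κ, hγ, hs, happ⟩ := approx_lat hm hΓ _ hO ⟨x, hcon⟩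
  exact hy (Omega_core hm hΓ h Ω hc hΩ y γ s κ hγ hs happ)

private theorem Omega_eq {proj : Prop} (hm : 1 ≤ m) {Γ : Subgroup (SLn (m + 1))}
    {X : Type} [TopologicalSpace X] {π : Sph (m + 1) → X}
    {τ : SLn (m + 1) → X → X} (h : SphSys proj Γ X π τ) (Ω : Sph (m + 1) → X)
    (hc : Continuous Ω) (hpt : ∀ x, Ω x = π x ∨ Ω x = π (-x)) :
    (∀ x, Ω x = π x) ∨ (∀ x, Ω x = π (-x)) := by
  have hT2 := h.t2
  by_cases hp : proj
  · left
    intro x
    rcases hpt x with h1 | h1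
    · exact h1
    · rw [h1]
      exact (h.fib _ _).2 (Or.inr ⟨hp, rfl⟩)
  have hneg : Continuous fun x : Sph (m + 1) => -x := continuous_neg
  have hA : IsClosed {x : Sph (m + 1) | Ω x = π x} := isClosed_eq hc h.πc
  have hB : IsClosed {x : Sph (m + 1) | Ω x = π (-x)} := isClosed_eq hc (h.πc.comp hneg)
  have hAB : {x : Sph (m + 1) | Ω x = π x}ᶜ = {x : Sph (m + 1) | Ω x = π (-x)} := by
    ext x
    constructor
    · intro hx
      exact (hpt x).resolve_left hx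
    · intro hx hx'
      have h1 : π x = π (-x) := by
        have h2 : Ω x = π x := hx'
        have h3 : Ω x = π (-x) := hx
        rw [← h2, h3]
      rcases (h.fib _ _).1 h1 with h2 | h2
      · have h3 := congrArg (Subtype.val : Sph (m + 1) → Eu (m + 1)) h2
        have h4 : (x : Eu (m + 1)) = -(x : Eu (m + 1)) := h3
        have h5 : (2 : ℝ) • (x : Eu (m + 1)) = 0 := by
          rw [two_smul]
          exact eq_neg_iff_add_eq_zero.1 h4
        rcases smul_eq_zero.1 h5 with h6 | h6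
        · exact two_ne_zero h6
        · exact sph_ne x h6
      · exact hp h2.1
  have hclopen : IsClopen {x : Sph (m + 1) | Ω x = π x} := by
    refine ⟨hA, ?_⟩
    rw [← isClosed_compl_iff, hAB]
    exact hB
  have hrank : 1 < Module.rank ℝ (Eu (m + 1)) := by
    rw [← Module.finrank_eq_rank, finrank_euclideanSpace_fin]
    exact_mod_cast Nat.lt_succ_of_le hm
  have hpre : PreconnectedSpace (Sph (m + 1)) :=
    isPreconnected_iff_preconnectedSpace.1 (isPreconnected_sphere hrank 0 1)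
  rcases isClopen_iff.1 hclopen with h1 | h1
  · right
    intro x
    have h2 : x ∈ {x : Sph (m + 1) | Ω x = π x}ᶜ := by
      rw [h1]
      simp
    rw [hAB] at h2
    exact h2
  · left
    intro x
    have h2 : x ∈ {x : Sph (m + 1) | Ω x = π x} := by
      rw [h1]
      exact Set.mem_univ x
    exact h2

theorem standard_lat {proj : Prop} (hm : 2 ≤ m) {Γ : Subgroup (SLn (m + 1))}
    (hΓ : IsLattice Γ) {X : Type} [TopologicalSpace X] {π : Sph (m + 1) → X}
    {τ : SLn (m + 1) → X → X} (h : SphSys proj Γ X π τ) (g : SLn (m + 1)) (x : Sph (m + 1)) :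
    τ g (π x) = π (sphAct g x) := by
  obtain ⟨Ω, hc, hΩ⟩ := exists_Omega_lat hm hΓ h
  have hpt := Omega_pt_lat hm hΓ h Ω hc (fun γ _ x => hΩ γ x)
  rcases Omega_eq (by omega) h Ω hc hpt with h1 | h1
  · rw [← h1 x, ← hΩ, h1]
  · have h2 : π x = Ω (-x) := by rw [h1, neg_neg]
    rw [h2, ← hΩ, h1, sphAct_neg, neg_neg]

end Pool.Agent.Work.MP_20070e_gt.Y
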