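import Mathlib
import Pool.Agent.Work.MP_20070e_gt.Y.YProj
import Pool.Agent.Work.MP_20070e_gt.X.LOrd
import Pool.Agent.Work.MP_20070e_gt.X.LLat
import Pool.Agent.Work.MP_20070e_gt.X.LCycB

/-!
# Y/YMain: assembly (helper27)
-/

set_option autoImplicit false

open Matrix Topology Metric Filter ContDiff Manifold TopologicalSpace

namespace Pool.Agent.Work.MP_20070e_gt.Y

open Pool.Agent.Work.MP_20070e_gt.X

theorem main_neg (m : ℕ) (hm : 2 ≤ m) :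
    (∃ Γ : Subgroup (SLn (m + 1)), IsLattice Γ ∧ IsUniformLattice Γ ∧ ∃ χ : Γ →* ℤˣ, χ ≠ 1) ∧
    ∀ Γ : Subgroup (SLn (m + 1)), IsLattice Γ → (∃ χ : Γ →* ℤˣ, χ ≠ 1) →
      HasNonExtendable False Γ ∧ HasNonExtendable True Γ := by
  refine ⟨?_, ?_⟩
  · obtain ⟨D⟩ := exists_cycRing (m + 1) (by omega)
    obtain ⟨O⟩ := ordN_of_cycRing (by omega) D
    obtain ⟨Γ, hΓ, χ, hχ⟩ := lattice_of_ordN (by omega) O
    exact ⟨Γ, hΓ.isLattice, hΓ, χ, hχ⟩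
  · rintro Γ hΓ ⟨χ, hχ⟩
    exact ⟨nonExt_sph_lat hm hΓ χ hχ, nonExt_proj_lat hm hΓ χ hχ⟩

theorem main_structure (m : ℕ) (hm : 2 ≤ m) (Γ : Subgroup (SLn (m + 1))) (hΓ : IsLattice Γ)
    (proj : Prop) (M : Type) [TopologicalSpace M] [ChartedSpace (Eu (m + 1)) M]
    (hM : IsSmoothManifold (m + 1) M) (α : SmoothAction Γ M) (φ : Sph (m + 1) → M)
    (hφ : IsModel proj φ) (hst : IsStandardOn α φ) (U : Set M) (W : Set (SLn (m + 1) × M))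
    (θ : SLn (m + 1) × M → M) (hθ : IsLocalExtension α (Set.range φ) U W θ) :
    (∀ (g : SLn (m + 1)) (x : Sph (m + 1)), θ (g, φ x) = φ (sphAct g x)) ∧
      ∀ (V : Set M) (ρ : M → ℝ), IsOpen V → Set.range φ ⊆ V → ContinuousOn ρ V →
        (∀ z ∈ V, ρ z = 0 ↔ z ∈ Set.range φ) →
        ∀ γ : Γ, ∀ᶠ z in 𝓝ˢ (Set.range φ), 0 < ρ z → 0 < ρ (α.toFun γ z) :=
  ⟨fun g x => standard_on_lat hm hΓ hM hφ hst hθ g x, fun _ _ hV hV' hρ hρ0 γ =>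
    sides_lat hm hΓ hM hφ hst hθ hV hV' hρ hρ0 γ⟩

end Pool.Agent.Work.MP_20070e_gt.Y
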